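import Mathlib

/-!
A family of groups used for probabilistic group laws.

For an additive commutative group `V` and a set `E ⊆ V`, the group `Gam E` has underlying set
`ℤ[V] × (V → ℤ) × V`; the subgroup `{pos = 0}` is a two-step nilpotent group in which the
`E`-part of the commutator of two elements with lamp parts `u, u'` is the restriction to `E` of
`u* u' - u'* u`.  `V` acts by translation.
-/

namespace H790W

open AddMonoidAlgebra

variable {V : Type*} [AddCommGroup V]

/-- The monomial `t^v` of the group ring `ℤ[V]`. -/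
noncomputable def T (v : V) : AddMonoidAlgebra ℤ V := AddMonoidAlgebra.single v 1

/-- The involution `t^v ↦ t^{-v}` of the group ring. -/
noncomputable def rev : AddMonoidAlgebra ℤ V →+* AddMonoidAlgebra ℤ V :=
  AddMonoidAlgebra.mapDomainRingHom ℤ (negAddMonoidHom : V →+ V)

lemma T_zero : T (0 : V) = 1 := rfl

lemma T_add (v w : V) : T (v + w) = T v * T w := by simp [T]

lemma T_neg_mul (v : V) : T (-v) * T v = 1 := by rw [← T_add, neg_add_cancel, T_zero]

lemma T_mul_neg (v : V) : T v * T (-v) = 1 := by rw [← T_add, add_neg_cancel, T_zero]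

lemma rev_T (v : V) : rev (T v) = T (-v) := by
  simp [rev, T, AddMonoidAlgebra.mapDomain_single]

lemma coeff_rev (u : AddMonoidAlgebra ℤ V) (r : V) : (rev u).coeff r = u.coeff (-r) := by
  have h := Finsupp.mapDomain_apply (neg_injective : Function.Injective (fun x : V => -x)) u.coeff (-r)
  rw [neg_neg] at h
  exact h

lemma rev_rev (u : AddMonoidAlgebra ℤ V) : rev (rev u) = u := by
  ext r; rw [coeff_rev, coeff_rev, neg_neg]

lemma coeff_T_mul (v : V) (u : AddMonoidAlgebra ℤ V) (r : V) :
    (T v * u).coeff r = u.coeff (r - v) := by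
  rw [T, AddMonoidAlgebra.coeff_single_mul_eq_mul_coeff (r - v), one_mul]
  intro m' _
  constructor
  · rintro rfl; abel
  · rintro rfl; abel

/-- restriction of the coefficients to `E`. -/
noncomputable def res (E : Set V) (u : AddMonoidAlgebra ℤ V) : V → ℤ := E.indicator (⇑u.coeff)

lemma res_add (E : Set V) (u v : AddMonoidAlgebra ℤ V) : res E (u + v) = res E u + res E v := by
  unfold res; rw [← Set.indicator_add']; rfl

lemma res_zero (E : Set V) : res E (0 : AddMonoidAlgebra ℤ V) = 0 := by
  unfold res; simp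

lemma res_neg (E : Set V) (u : AddMonoidAlgebra ℤ V) : res E (-u) = - res E u := by
  have := res_add E u (-u)
  rw [add_neg_cancel, res_zero] at this
  exact (neg_eq_of_add_eq_zero_right this.symm).symm

lemma res_sub (E : Set V) (u v : AddMonoidAlgebra ℤ V) : res E (u - v) = res E u - res E v := by
  rw [sub_eq_add_neg, res_add, res_neg, sub_eq_add_neg]

omit [AddCommGroup V] in
lemma res_eq_zero_iff (E : Set V) (u : AddMonoidAlgebra ℤ V) :
    res E u = 0 ↔ ∀ r ∈ E, u.coeff r = 0 := by
  constructor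
  · intro h r hr
    have := congrFun h r
    simpa [res, Set.indicator_of_mem hr] using this
  · intro h
    funext r
    by_cases hr : r ∈ E
    · simp [res, Set.indicator_of_mem hr, h r hr]
    · simp [res, Set.indicator_of_notMem hr]

/-- The group `Gam E`. -/
@[ext] structure Gam (E : Set V) where
  /-- lamps -/
  lamp : AddMonoidAlgebra ℤ V
  /-- central part -/
  cen : V → ℤ
  /-- position -/
  pos : V

namespace Gam

variable {E : Set V}

noncomputable instance : Mul (Gam E) :=
  ⟨fun a b => ⟨a.lamp + T a.pos * b.lamp,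
    a.cen + b.cen + res E (rev a.lamp * (T a.pos * b.lamp)), a.pos + b.pos⟩⟩

noncomputable instance : One (Gam E) := ⟨⟨0, 0, 0⟩⟩

noncomputable instance : Inv (Gam E) :=
  ⟨fun a => ⟨- (T (-a.pos) * a.lamp), - a.cen + res E (rev a.lamp * a.lamp), -a.pos⟩⟩

@[simp] lemma mul_lamp (a b : Gam E) : (a * b).lamp = a.lamp + T a.pos * b.lamp := rfl
@[simp] lemma mul_cen (a b : Gam E) :
    (a * b).cen = a.cen + b.cen + res E (rev a.lamp * (T a.pos * b.lamp)) := rfl
@[simp] lemma mul_pos' (a b : Gam E) : (a * b).pos = a.pos + b.pos := rfl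
@[simp] lemma one_lamp : (1 : Gam E).lamp = 0 := rfl
@[simp] lemma one_cen : (1 : Gam E).cen = 0 := rfl
@[simp] lemma one_pos : (1 : Gam E).pos = 0 := rfl
@[simp] lemma inv_lamp (a : Gam E) : (a⁻¹).lamp = - (T (-a.pos) * a.lamp) := rfl
@[simp] lemma inv_cen (a : Gam E) : (a⁻¹).cen = - a.cen + res E (rev a.lamp * a.lamp) := rfl
@[simp] lemma inv_pos (a : Gam E) : (a⁻¹).pos = -a.pos := rfl

noncomputable instance : Group (Gam E) :=
  Group.ofLeftAxioms
    (by
      intro a b c
      ext1
      · simp only [mul_lamp, mul_pos', T_add]; ring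
      · simp only [mul_lamp, mul_cen, mul_pos', T_add, map_add, map_mul, rev_T]
        have : (rev a.lamp + T (-a.pos) * rev b.lamp) * (T a.pos * T b.pos * c.lamp)
            = rev a.lamp * (T a.pos * (T b.pos * c.lamp)) + rev b.lamp * (T b.pos * c.lamp) := by
          linear_combination (rev b.lamp * (T b.pos * c.lamp)) * T_neg_mul a.pos
        rw [this, res_add]
        have h2 : rev a.lamp * (T a.pos * (b.lamp + T b.pos * c.lamp))
          = rev a.lamp * (T a.pos * b.lamp) + rev a.lamp * (T a.pos * (T b.pos * c.lamp)) := by ring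
        rw [h2, res_add]
        abel
      · simp only [mul_pos']; abel)
    (by
      intro a
      ext1
      · simp [T_zero]
      · simp [res_zero]
      · simp)
    (by
      intro a
      ext1
      · simp
      · simp only [mul_cen, inv_lamp, inv_cen, inv_pos, one_cen, map_neg, map_mul, rev_T, neg_neg]
        have : -(T a.pos * rev a.lamp) * (T (-a.pos) * a.lamp) = -(rev a.lamp * a.lamp) := by
          linear_combination (-(rev a.lamp * a.lamp)) * T_mul_neg a.pos
        rw [this, res_neg]
        abel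
      · simp)

/-- commutator of two elements at position zero -/
lemma comm_zero (a b : Gam E) (ha : a.pos = 0) (hb : b.pos = 0) :
    a * b * a⁻¹ * b⁻¹ = ⟨0, res E (rev a.lamp * b.lamp - rev b.lamp * a.lamp), 0⟩ := by
  ext1
  · simp only [mul_lamp, inv_lamp, mul_pos', inv_pos, ha, hb, add_zero, neg_zero, T_zero]; ring
  · simp only [mul_lamp, inv_lamp, mul_pos', inv_pos, ha, hb, add_zero, neg_zero, T_zero, mul_cen,
      inv_cen, one_mul, map_add, map_neg, mul_neg, res_neg, add_mul, res_add,
      neg_mul, res_sub]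
    abel
  · simp [ha, hb]

/-- lamps of a commutator -/
lemma comm_lamp (a b : Gam E) :
    (a * b * a⁻¹ * b⁻¹).lamp = a.lamp + T a.pos * b.lamp - T b.pos * a.lamp - b.lamp := by
  simp only [mul_lamp, inv_lamp, mul_pos', inv_pos, T_add]
  have h1 := T_mul_neg a.pos
  have h2 := T_mul_neg b.pos
  linear_combination (-(T b.pos * a.lamp) - b.lamp * (T b.pos * T (-b.pos))) * h1 - b.lamp * h2

lemma comm_pos (a b : Gam E) : (a * b * a⁻¹ * b⁻¹).pos = 0 := by
  simp only [mul_pos', inv_pos]; abel

lemma conj_lamp (z a : Gam E) (ha : a.pos = 0) : (z * a * z⁻¹).lamp = T z.pos * a.lamp := by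
  simp only [mul_lamp, inv_lamp, mul_pos', ha, add_zero]
  linear_combination (- z.lamp) * T_mul_neg z.pos

lemma conj_pos (z a : Gam E) (ha : a.pos = 0) : (z * a * z⁻¹).pos = 0 := by
  simp [ha]

lemma pow_pos' (z : Gam E) (k : ℕ) : (z ^ k).pos = k • z.pos := by
  induction k with
  | zero => simp
  | succ k ih => rw [pow_succ, mul_pos', ih, succ_nsmul]

/-- The value of `[[x,y]^(z^k), [x,y]]`. -/
lemma word_value (x y z : Gam E) (k : ℕ) (u : AddMonoidAlgebra ℤ V)
    (hu : u = x.lamp + T x.pos * y.lamp - T y.pos * x.lamp - y.lamp) :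
    (z ^ k * (x * y * x⁻¹ * y⁻¹) * (z ^ k)⁻¹) * (x * y * x⁻¹ * y⁻¹) *
      (z ^ k * (x * y * x⁻¹ * y⁻¹) * (z ^ k)⁻¹)⁻¹ * (x * y * x⁻¹ * y⁻¹)⁻¹ =
      ⟨0, res E ((T (-(k • z.pos)) - T (k • z.pos)) * (rev u * u)), 0⟩ := by
  rw [comm_zero _ _ (conj_pos _ _ (comm_pos _ _)) (comm_pos _ _)]
  congr 2
  rw [conj_lamp _ _ (comm_pos _ _), comm_lamp, ← hu, pow_pos', map_mul, rev_T]
  ring

end Gam

end H790W
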