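import Mathlib
import Pool.Agent.H790W.Grp

/-!
Anti-concentration for a lazy walk on `ℤ^6` whose moves are uniform in `{±1}^6`.
-/

namespace H790W

open Finset

/-- `ℤ^6` -/
abbrev V6 := Fin 6 → ℤ

/-- the vectors of `{±1}^6`, coded by Booleans -/
def dir (q : Fin 6 → Bool) : V6 := fun i => if q i then 1 else -1

lemma cb_bound (k : ℕ) : (k.centralBinom) ^ 2 * (2 * k + 1) ≤ 16 ^ k := by
  induction k with
  | zero => simp
  | succ k ih =>
    have h := Nat.succ_mul_centralBinom_succ k
    have h2 : ((k + 1) * (k + 1).centralBinom) ^ 2 * (2 * (k + 1) + 1) ≤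
        (k + 1) ^ 2 * 16 ^ (k + 1) := by
      rw [h]
      calc (2 * (2 * k + 1) * k.centralBinom) ^ 2 * (2 * (k + 1) + 1)
          = (k.centralBinom ^ 2 * (2 * k + 1)) * (4 * ((2 * k + 1) * (2 * k + 3))) := by ring
        _ ≤ 16 ^ k * (4 * ((2 * k + 1) * (2 * k + 3))) := Nat.mul_le_mul_right _ ih
        _ ≤ 16 ^ k * (4 * (4 * (k + 1) ^ 2)) := by
            apply Nat.mul_le_mul_left
            apply Nat.mul_le_mul_left
            nlinarith
        _ = (k + 1) ^ 2 * 16 ^ (k + 1) := by ring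
    have h3 : (k + 1) ^ 2 * ((k + 1).centralBinom ^ 2 * (2 * (k + 1) + 1)) ≤
        (k + 1) ^ 2 * 16 ^ (k + 1) := by
      calc _ = ((k + 1) * (k + 1).centralBinom) ^ 2 * (2 * (k + 1) + 1) := by ring
        _ ≤ _ := h2
    exact Nat.le_of_mul_le_mul_left h3 (by positivity)

lemma mid_bound (m : ℕ) : (m.choose (m / 2)) ^ 2 * (m + 1) ≤ 4 ^ m := by
  rcases Nat.even_or_odd' m with ⟨k, hk | hk⟩
  · subst hk
    rw [Nat.mul_div_cancel_left k (by norm_num)]
    have := cb_bound k
    rw [Nat.centralBinom_eq_two_mul_choose] at this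
    calc _ ≤ 16 ^ k := this
      _ = 4 ^ (2 * k) := by rw [pow_mul]; norm_num
  · subst hk
    have hdiv : (2 * k + 1) / 2 = k := by omega
    rw [hdiv]
    have h := cb_bound (k + 1)
    have h1 : (k + 1).centralBinom = 2 * (2 * k + 1).choose k := by
      rw [Nat.centralBinom_eq_two_mul_choose, show 2 * (k + 1) = (2 * k + 1) + 1 by ring,
        Nat.choose_succ_succ, Nat.choose_symm_half]
      ring
    rw [h1] at h
    have h2 : 4 * (((2 * k + 1).choose k) ^ 2 * (2 * k + 1 + 1)) ≤ 4 * 4 ^ (2 * k + 1) := by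
      calc 4 * (((2 * k + 1).choose k) ^ 2 * (2 * k + 1 + 1))
          ≤ (2 * (2 * k + 1).choose k) ^ 2 * (2 * (k + 1) + 1) := by nlinarith [sq_nonneg ((2*k+1).choose k)]
        _ ≤ 16 ^ (k + 1) := h
        _ = 4 * 4 ^ (2 * k + 1) := by
            rw [show (16 : ℕ) = 4 ^ 2 by norm_num, ← pow_mul]; ring
    omega

lemma mid_bound6 (m : ℕ) :
    (m.choose (m / 2)) ^ 6 * ((m + 1) * (m + 2) * (m + 3)) ≤ 6 * 64 ^ m := by
  have h := mid_bound m
  have h3 : ((m.choose (m / 2)) ^ 2 * (m + 1)) ^ 3 ≤ (4 ^ m) ^ 3 := Nat.pow_le_pow_left h 3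
  have h4 : (m + 1) * (m + 2) * (m + 3) ≤ 6 * (m + 1) ^ 3 := by nlinarith [sq_nonneg (m : ℤ)]
  calc (m.choose (m / 2)) ^ 6 * ((m + 1) * (m + 2) * (m + 3))
      ≤ (m.choose (m / 2)) ^ 6 * (6 * (m + 1) ^ 3) := Nat.mul_le_mul_left _ h4
    _ = 6 * ((m.choose (m / 2)) ^ 2 * (m + 1)) ^ 3 := by ring
    _ ≤ 6 * (4 ^ m) ^ 3 := Nat.mul_le_mul_left _ h3
    _ = 6 * 64 ^ m := by rw [← pow_mul, mul_comm m 3, pow_mul]; norm_num

/-- number of `m`-step paths with steps in `{±1}^6` ending at `c`. -/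
lemma moves_bound (m : ℕ) (c : V6) :
    (univ.filter fun β : Fin m → (Fin 6 → Bool) => ∑ k, dir (β k) = c).card ≤
      (m.choose (m / 2)) ^ 6 := by
  classical
  let t : Fin 6 → ℕ := fun i => ((m + c i) / 2).toNat
  have key : ∀ β : Fin m → (Fin 6 → Bool), (∑ k, dir (β k) = c) → ∀ i,
      (univ.filter fun k => β k i = true).card = t i := by
    intro β hβ i
    have h1 : ∑ k, (dir (β k)) i = c i := by rw [← hβ, Finset.sum_apply]
    have h2 : ∀ k, (dir (β k)) i = 2 * (if β k i = true then (1 : ℤ) else 0) - 1 := by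
      intro k; unfold dir; by_cases h : β k i = true <;> simp [h]
    simp only [h2, Finset.sum_sub_distrib, ← Finset.mul_sum, Finset.sum_boole, Finset.sum_const,
      Finset.card_univ, Fintype.card_fin, nsmul_eq_mul, mul_one] at h1
    have h3 : ((m : ℤ) + c i) / 2 = ((univ.filter fun k => β k i = true).card : ℤ) := by
      rw [← h1]; omega
    simp only [t, h3, Int.toNat_natCast]
  have hinj : Set.InjOn (fun β : Fin m → (Fin 6 → Bool) => fun i : Fin 6 =>
      (univ.filter fun k => β k i = true)) (univ.filter fun β : Fin m → (Fin 6 → Bool) =>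
        ∑ k, dir (β k) = c : Finset _) := by
    intro β _ β' _ h
    funext k i
    have := congrFun h i
    have h2 : k ∈ (univ.filter fun k => β k i = true) ↔ k ∈ (univ.filter fun k => β' k i = true) := by
      simp only at this; rw [this]
    simp only [mem_filter, mem_univ, true_and] at h2
    cases hb : β k i <;> cases hb' : β' k i <;> simp_all
  calc (univ.filter fun β : Fin m → (Fin 6 → Bool) => ∑ k, dir (β k) = c).card
      ≤ (Fintype.piFinset fun i : Fin 6 => powersetCard (t i) (univ : Finset (Fin m))).card := by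
        apply Finset.card_le_card_of_injOn _ _ hinj
        intro β hβ
        simp only [coe_filter, mem_univ, true_and, Set.mem_ofPred_eq] at hβ
        simp only [Fintype.coe_piFinset, Set.mem_pi, Set.mem_univ, forall_const, mem_coe,
          mem_powersetCard, subset_univ, true_and]
        exact key β hβ
    _ = ∏ i : Fin 6, m.choose (t i) := by
        rw [Fintype.card_piFinset]; simp
    _ ≤ ∏ _i : Fin 6, m.choose (m / 2) := by
        apply Finset.prod_le_prod' 
        intro i _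
        exact Nat.choose_le_middle _ _
    _ = _ := by simp

variable {V : Type*} [AddCommGroup V]

lemma T_sum {ι : Type*} (s : Finset ι) (f : ι → V) : T (∑ i ∈ s, f i) = ∏ i ∈ s, T (f i) := by
  classical
  induction s using Finset.induction_on with
  | empty => simp [T_zero]
  | insert a s ha ih => rw [Finset.sum_insert ha, Finset.prod_insert ha, T_add, ih]

lemma sum_T_pow {Ω : Type*} [Fintype Ω] (disp : Ω → V) (n : ℕ) :
    (∑ o, T (disp o)) ^ n = ∑ ω : Fin n → Ω, T (∑ k, disp (ω k)) := by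
  classical
  have h : (∑ o, T (disp o)) ^ n = ∏ _k : Fin n, ∑ o, T (disp o) := by simp
  rw [h, Finset.prod_univ_sum, Fintype.piFinset_univ]
  apply Finset.sum_congr rfl
  intro ω _
  rw [T_sum]

open Classical in
omit [AddCommGroup V] in
lemma coeff_sum_T {Λ : Type*} [Fintype Λ] (f : Λ → V) (c : V) :
    (∑ ω : Λ, T (f ω)).coeff c = ((univ.filter fun ω : Λ => f ω = c).card : ℤ) := by
  rw [AddMonoidAlgebra.coeff_sum, Finsupp.finsetSum_apply]
  simp only [T, AddMonoidAlgebra.coeff_single, Finsupp.single_apply]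
  rw [Finset.sum_boole]

open Classical in
/-- Main anti-concentration estimate. -/
lemma anti {Ω : Type*} [Fintype Ω] (disp : Ω → V6) (z : ℕ)
    (hρ : ∑ o, T (disp o) = (z : AddMonoidAlgebra ℤ V6) + ∑ q : Fin 6 → Bool, T (dir q))
    (n : ℕ) (c : V6) :
    64 ^ 3 * (n + 1) ^ 3 * (univ.filter fun ω : Fin n → Ω => ∑ k, disp (ω k) = c).card ≤
      6 * (z + 64) ^ (n + 3) := by
  set N := (univ.filter fun ω : Fin n → Ω => ∑ k, disp (ω k) = c).card with hN
  set M : ℕ → ℕ := fun m =>
    (univ.filter fun β : Fin m → (Fin 6 → Bool) => ∑ k, dir (β k) = c).card with hM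
  have h1 : (N : ℤ) = ∑ m ∈ range (n + 1), (M m : ℤ) * (z : ℤ) ^ (n - m) * (n.choose m : ℤ) := by
    have e0 : (N : ℤ) = (∑ ω : Fin n → Ω, T (∑ k, disp (ω k))).coeff c := by
      rw [coeff_sum_T, hN]
      congr!
    rw [e0, ← sum_T_pow, hρ, add_comm, add_pow, AddMonoidAlgebra.coeff_sum,
      Finsupp.finsetSum_apply]
    apply Finset.sum_congr rfl
    intro m _
    have e2 : ((∑ q : Fin 6 → Bool, T (dir q)) ^ m).coeff c = (M m : ℤ) := by
      rw [sum_T_pow, coeff_sum_T, hM]
      congr!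
    have e3 : (∑ q : Fin 6 → Bool, T (dir q)) ^ m * (z : AddMonoidAlgebra ℤ V6) ^ (n - m) *
        (n.choose m : AddMonoidAlgebra ℤ V6) =
        ((z ^ (n - m) * n.choose m : ℕ)) • (∑ q : Fin 6 → Bool, T (dir q)) ^ m := by
      rw [nsmul_eq_mul]; push_cast; ring
    rw [e3, AddMonoidAlgebra.coeff_smul, Finsupp.smul_apply, e2, nsmul_eq_mul]
    push_cast
    ring
  have h2 : N = ∑ m ∈ range (n + 1), M m * z ^ (n - m) * n.choose m := by exact_mod_cast h1
  have hterm : ∀ m ∈ range (n + 1),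
      64 ^ 3 * (n + 1) ^ 3 * (M m * z ^ (n - m) * n.choose m) ≤
        6 * (64 ^ (m + 3) * z ^ (n - m) * (n + 3).choose (m + 3)) := by
    intro m hm
    have hc : (n + 3).choose (m + 3) * ((m + 1) * (m + 2) * (m + 3)) =
        n.choose m * ((n + 1) * (n + 2) * (n + 3)) := by
      have a1 := Nat.add_one_mul_choose_eq n m
      have a2 := Nat.add_one_mul_choose_eq (n + 1) (m + 1)
      have a3 := Nat.add_one_mul_choose_eq (n + 2) (m + 2)
      simp only [Nat.add_assoc] at a1 a2 a3
      norm_num at a1 a2 a3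
      calc (n + 3).choose (m + 3) * ((m + 1) * (m + 2) * (m + 3))
          = ((n + 3).choose (m + 3) * (m + 3)) * ((m + 1) * (m + 2)) := by ring
        _ = (n + 3) * ((n + 2).choose (m + 2) * (m + 2)) * (m + 1) := by rw [← a3]; ring
        _ = (n + 3) * (n + 2) * ((n + 1).choose (m + 1) * (m + 1)) := by rw [← a2]; ring
        _ = (n + 3) * (n + 2) * ((n + 1) * n.choose m) := by rw [← a1]
        _ = _ := by ring
    have hMm := moves_bound m c
    have hb := mid_bound6 m
    have hMb : M m * ((m + 1) * (m + 2) * (m + 3)) ≤ 6 * 64 ^ m :=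
      le_trans (Nat.mul_le_mul_right _ hMm) hb
    calc 64 ^ 3 * (n + 1) ^ 3 * (M m * z ^ (n - m) * n.choose m)
        ≤ 64 ^ 3 * ((n + 1) * (n + 2) * (n + 3)) * (M m * z ^ (n - m) * n.choose m) := by
          apply Nat.mul_le_mul_right
          apply Nat.mul_le_mul_left
          nlinarith
      _ = 64 ^ 3 * M m * z ^ (n - m) * (n.choose m * ((n + 1) * (n + 2) * (n + 3))) := by ring
      _ = 64 ^ 3 * z ^ (n - m) * (n + 3).choose (m + 3) * (M m * ((m + 1) * (m + 2) * (m + 3))) := by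
          rw [← hc]; ring
      _ ≤ 64 ^ 3 * z ^ (n - m) * (n + 3).choose (m + 3) * (6 * 64 ^ m) := Nat.mul_le_mul_left _ hMb
      _ = _ := by ring
  rw [h2, Finset.mul_sum]
  refine le_trans (Finset.sum_le_sum hterm) ?_
  rw [← Finset.mul_sum]
  apply Nat.mul_le_mul_left
  rw [add_comm z 64, add_pow]
  calc ∑ m ∈ range (n + 1), 64 ^ (m + 3) * z ^ (n - m) * (n + 3).choose (m + 3)
      = ∑ j ∈ (range (n + 1)).image (fun m => m + 3),
          64 ^ j * z ^ (n + 3 - j) * (n + 3).choose j := by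
        rw [Finset.sum_image (by intro a _ b _ h; simpa using h)]
        apply Finset.sum_congr rfl
        intro m _
        rw [show n + 3 - (m + 3) = n - m by omega]
    _ ≤ ∑ j ∈ range (n + 3 + 1), 64 ^ j * z ^ (n + 3 - j) * (n + 3).choose j := by
        apply Finset.sum_le_sum_of_subset
        intro j hj
        simp only [mem_image, mem_range] at hj ⊢
        obtain ⟨m, hm, rfl⟩ := hj
        omega

end H790W
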