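import Mathlib

/-!
Random walks on groups and the probability that independent walks satisfy a word.
-/

namespace H790W

open scoped ENNReal

/-- The law of `R_n = ξ_1 ξ_2 ⋯ ξ_n` where the `ξ_i` are independent with law `μ`. -/
noncomputable def walk {G : Type*} [Group G] (μ : PMF G) : ℕ → PMF G
  | 0 => PMF.pure 1
  | n + 1 => μ.bind fun s => (walk μ n).map fun g => g * s

open Classical in
/-- The probability that `w(R_n^{(1)}, …, R_n^{(d)}) = 1` for `d` independent copies of the
walk with step law `μ`. -/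
noncomputable def satProb {G : Type*} [Group G] (μ : PMF G) {d : ℕ} (w : FreeGroup (Fin d))
    (n : ℕ) : ℝ≥0∞ :=
  ∑' g : Fin d → G, if FreeGroup.lift g w = 1 then ∏ i, walk μ n (g i) else 0

variable {G : Type*} [Group G]

/-- product of the steps -/
def rprod {Ω : Type*} (s : Ω → G) {n : ℕ} (ω : Fin n → Ω) : G :=
  (List.ofFn fun k => s (ω k)).prod

lemma rprod_snoc {Ω : Type*} (s : Ω → G) {n : ℕ} (ω : Fin n → Ω) (o : Ω) :
    rprod s (Fin.snoc (α := fun _ => Ω) ω o) = rprod s ω * s o := by
  unfold rprod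
  rw [List.ofFn_succ']
  simp

lemma rprod_cons {Ω : Type*} (s : Ω → G) {n : ℕ} (ω : Fin n → Ω) (o : Ω) :
    rprod s (Fin.cons (α := fun _ => Ω) o ω) = s o * rprod s ω := by
  unfold rprod
  rw [List.ofFn_succ]
  simp

lemma rprod_zero {Ω : Type*} (s : Ω → G) (ω : Fin 0 → Ω) : rprod s ω = 1 := by
  simp [rprod]

lemma unif_succ (Ω : Type*) [Fintype Ω] [Nonempty Ω] (n : ℕ) :
    PMF.uniformOfFintype (Fin (n + 1) → Ω) =
      (PMF.uniformOfFintype Ω).bind fun o =>
        (PMF.uniformOfFintype (Fin n → Ω)).map fun ω => Fin.snoc (α := fun _ => Ω) ω o := by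
  classical
  ext ω'
  rw [PMF.bind_apply, tsum_fintype]
  have h1 : ∀ o : Ω, (PMF.map (fun ω : Fin n → Ω => (Fin.snoc (α := fun _ => Ω) ω o : Fin (n+1) → Ω))
      (PMF.uniformOfFintype (Fin n → Ω))) ω' =
        if o = ω' (Fin.last n) then ((Fintype.card (Fin n → Ω) : ℝ≥0∞))⁻¹ else 0 := by
    intro o
    rw [PMF.map_apply, tsum_fintype]
    by_cases ho : o = ω' (Fin.last n)
    · rw [if_pos ho]
      rw [Finset.sum_eq_single (Fin.init ω')]
      · rw [if_pos, PMF.uniformOfFintype_apply]
        rw [ho]; exact (Fin.snoc_init_self ω').symm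
      · intro b _ hb
        rw [if_neg]
        intro h
        apply hb
        rw [h]
        exact (Fin.init_snoc (α := fun _ => Ω) _ _).symm
      · intro h; exact absurd (Finset.mem_univ _) h
    · rw [if_neg ho]
      apply Finset.sum_eq_zero
      intro b _
      rw [if_neg]
      intro h
      apply ho
      rw [h, Fin.snoc_last]
  simp only [h1, PMF.uniformOfFintype_apply, mul_ite, mul_zero]
  rw [Finset.sum_ite_eq' Finset.univ (ω' (Fin.last n)), if_pos (Finset.mem_univ _)]
  simp only [Fintype.card_fun, Fintype.card_fin]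
  rw [← ENNReal.mul_inv (Or.inr (ENNReal.natCast_ne_top _)) (Or.inl (ENNReal.natCast_ne_top _))]
  rw [pow_succ]
  push_cast
  rw [mul_comm]

/-- The law of the walk whose step law is the image of the uniform law on `Ω`. -/
lemma walk_map_uniform (Ω : Type*) [Fintype Ω] [Nonempty Ω] (s : Ω → G) (n : ℕ) :
    walk ((PMF.uniformOfFintype Ω).map s) n =
      (PMF.uniformOfFintype (Fin n → Ω)).map (rprod s) := by
  induction n with
  | zero =>
    have : (rprod s : (Fin 0 → Ω) → G) = Function.const _ 1 := by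
      funext ω; exact rprod_zero s ω
    rw [this, PMF.map_const]; rfl
  | succ n ih =>
    rw [unif_succ, PMF.map_bind]
    show ((PMF.uniformOfFintype Ω).map s).bind _ = _
    rw [PMF.bind_map]
    congr 1
    funext o
    simp only [Function.comp]
    rw [ih, PMF.map_comp, PMF.map_comp]
    congr 1
    funext ω
    simp only [Function.comp]
    rw [rprod_snoc]

open Classical in
/-- Counting formula for `satProb`. -/
lemma satProb_map_uniform (Ω : Type*) [Fintype Ω] [Nonempty Ω] (s : Ω → G) {d : ℕ}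
    (w : FreeGroup (Fin d)) (n : ℕ) :
    satProb ((PMF.uniformOfFintype Ω).map s) w n =
      ((Finset.univ.filter fun ω : Fin d → Fin n → Ω =>
        FreeGroup.lift (fun i => rprod s (ω i)) w = 1).card : ℝ≥0∞) /
        (((Fintype.card Ω : ℝ≥0∞) ^ n) ^ d) := by
  unfold satProb
  rw [walk_map_uniform]
  set c : ℝ≥0∞ := ((Fintype.card Ω : ℝ≥0∞) ^ n)⁻¹ with hc
  have hval : ∀ g : G, (PMF.map (rprod s) (PMF.uniformOfFintype (Fin n → Ω))) g =
      ∑ ω : Fin n → Ω, if g = rprod s ω then c else 0 := by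
    intro g
    rw [PMF.map_apply, tsum_fintype]
    simp only [PMF.uniformOfFintype_apply, Fintype.card_fun, Fintype.card_fin]
    push_cast
    rfl
  have hprod : ∀ g : Fin d → G, (∏ i, (PMF.map (rprod s) (PMF.uniformOfFintype (Fin n → Ω))) (g i)) =
      ∑ ω : Fin d → Fin n → Ω, if g = (fun i => rprod s (ω i)) then c ^ d else 0 := by
    intro g
    simp only [hval]
    rw [Finset.prod_univ_sum]
    rw [Fintype.piFinset_univ]
    apply Finset.sum_congr rfl
    intro ω _
    by_cases h : g = (fun i => rprod s (ω i))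
    · rw [if_pos h]
      rw [Finset.prod_congr rfl (fun i _ => if_pos (congrFun h i))]
      simp
    · rw [if_neg h]
      obtain ⟨i, hi⟩ := Function.ne_iff.mp h
      exact Finset.prod_eq_zero (Finset.mem_univ i) (if_neg hi)
  have h3 : ∀ g : Fin d → G, (if FreeGroup.lift g w = 1 then
      ∏ i, (PMF.map (rprod s) (PMF.uniformOfFintype (Fin n → Ω))) (g i) else 0) =
      ∑ ω : Fin d → Fin n → Ω, if g = (fun i => rprod s (ω i)) then
        (if FreeGroup.lift (fun i => rprod s (ω i)) w = 1 then c ^ d else 0) else 0 := by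
    intro g
    rw [hprod]
    by_cases h : FreeGroup.lift g w = 1
    · rw [if_pos h]
      apply Finset.sum_congr rfl
      intro ω _
      by_cases h2 : g = (fun i => rprod s (ω i))
      · rw [if_pos h2, if_pos h2, if_pos (h2 ▸ h)]
      · rw [if_neg h2, if_neg h2]
    · rw [if_neg h]
      symm
      apply Finset.sum_eq_zero
      intro ω _
      by_cases h2 : g = (fun i => rprod s (ω i))
      · rw [if_pos h2, if_neg (h2 ▸ h)]
      · rw [if_neg h2]
  simp only [h3]
  rw [Summable.tsum_finsetSum (fun _ _ => ENNReal.summable)]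
  have h4 : ∀ ω : Fin d → Fin n → Ω, (∑' g : Fin d → G, if g = (fun i => rprod s (ω i)) then
        (if FreeGroup.lift (fun i => rprod s (ω i)) w = 1 then c ^ d else 0) else 0) =
        (if FreeGroup.lift (fun i => rprod s (ω i)) w = 1 then c ^ d else 0) := by
    intro ω
    rw [tsum_ite_eq]
  simp only [h4]
  rw [← Finset.sum_filter, Finset.sum_const, nsmul_eq_mul, div_eq_mul_inv]
  congr 1
  rw [hc]
  exact ENNReal.inv_pow.symm

open Classical in
/-- real-valued version of the counting formula -/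
lemma satProb_eq_ofReal (Ω : Type*) [Fintype Ω] [Nonempty Ω] (s : Ω → G) {d : ℕ}
    (w : FreeGroup (Fin d)) (n : ℕ) :
    satProb ((PMF.uniformOfFintype Ω).map s) w n =
      ENNReal.ofReal (((Finset.univ.filter fun ω : Fin d → Fin n → Ω =>
        FreeGroup.lift (fun i => rprod s (ω i)) w = 1).card : ℝ) /
        (((Fintype.card Ω : ℝ) ^ n) ^ d)) := by
  rw [satProb_map_uniform, ENNReal.ofReal_div_of_pos (by positivity), ENNReal.ofReal_natCast]
  congr 1
  rw [ENNReal.ofReal_pow (by positivity), ENNReal.ofReal_pow (by positivity), ENNReal.ofReal_natCast]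

open Classical in
/-- `1 - bad/total` version -/
lemma satProb_eq_ofReal_sub (Ω : Type*) [Fintype Ω] [Nonempty Ω] (s : Ω → G) {d : ℕ}
    (w : FreeGroup (Fin d)) (n : ℕ) :
    satProb ((PMF.uniformOfFintype Ω).map s) w n =
      ENNReal.ofReal (1 - ((Finset.univ.filter fun ω : Fin d → Fin n → Ω =>
        FreeGroup.lift (fun i => rprod s (ω i)) w ≠ 1).card : ℝ) /
        (((Fintype.card Ω : ℝ) ^ n) ^ d)) := by
  rw [satProb_eq_ofReal]
  congr 1
  have h := Finset.card_filter_add_card_filter_not (s := (Finset.univ : Finset (Fin d → Fin n → Ω)))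
    (fun ω : Fin d → Fin n → Ω => FreeGroup.lift (fun i => rprod s (ω i)) w = 1)
  have hcard : ((Finset.univ : Finset (Fin d → Fin n → Ω)).card : ℝ) =
      ((Fintype.card Ω : ℝ) ^ n) ^ d := by
    rw [Finset.card_univ]; simp
  have h' : ((Finset.univ.filter fun ω : Fin d → Fin n → Ω =>
        FreeGroup.lift (fun i => rprod s (ω i)) w = 1).card : ℝ) +
      ((Finset.univ.filter fun ω : Fin d → Fin n → Ω =>
        FreeGroup.lift (fun i => rprod s (ω i)) w ≠ 1).card : ℝ) = ((Fintype.card Ω : ℝ) ^ n) ^ d := by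
    rw [← hcard]
    exact_mod_cast h
  have hpos : (0 : ℝ) < ((Fintype.card Ω : ℝ) ^ n) ^ d := by positivity
  rw [eq_sub_iff_add_eq, ← add_div, h', div_self hpos.ne']

open Classical in
/-- the number of `d`-tuples of step sequences violating `w` -/
noncomputable def badCount {Ω : Type*} [Fintype Ω] (s : Ω → G) {d : ℕ}
    (w : FreeGroup (Fin d)) (n : ℕ) : ℕ :=
  (Finset.univ.filter fun ω : Fin d → Fin n → Ω =>
    FreeGroup.lift (fun i => rprod s (ω i)) w ≠ 1).card

lemma satProb_eq_bad (Ω : Type*) [Fintype Ω] [Nonempty Ω] (s : Ω → G) {d : ℕ}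
    (w : FreeGroup (Fin d)) (n : ℕ) :
    satProb ((PMF.uniformOfFintype Ω).map s) w n =
      ENNReal.ofReal (1 - (badCount s w n : ℝ) / (((Fintype.card Ω : ℝ) ^ n) ^ d)) :=
  satProb_eq_ofReal_sub Ω s w n

end H790W
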