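import Mathlib
import Pool.Agent.H790W.Grp
import Pool.Agent.H790W.Prob

/-!
The word `[[x,y]^(z^k), [x,y]]` and its value on the groups `Gam E`.
-/

namespace H790W

open Finset

/-- The word `z^k [x,y] z^{-k} · [x,y] · (z^k [x,y] z^{-k})⁻¹ · [x,y]⁻¹`. -/
def W (k : ℕ) : FreeGroup (Fin 3) :=
  let x := FreeGroup.of 0
  let y := FreeGroup.of 1
  let z := FreeGroup.of 2
  (z ^ k * (x * y * x⁻¹ * y⁻¹) * (z ^ k)⁻¹) * (x * y * x⁻¹ * y⁻¹) *
      (z ^ k * (x * y * x⁻¹ * y⁻¹) * (z ^ k)⁻¹)⁻¹ * (x * y * x⁻¹ * y⁻¹)⁻¹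

lemma lift_W {G : Type*} [Group G] (g : Fin 3 → G) (k : ℕ) :
    FreeGroup.lift g (W k) =
      (g 2 ^ k * (g 0 * g 1 * (g 0)⁻¹ * (g 1)⁻¹) * (g 2 ^ k)⁻¹) * (g 0 * g 1 * (g 0)⁻¹ * (g 1)⁻¹) *
      (g 2 ^ k * (g 0 * g 1 * (g 0)⁻¹ * (g 1)⁻¹) * (g 2 ^ k)⁻¹)⁻¹ *
        (g 0 * g 1 * (g 0)⁻¹ * (g 1)⁻¹)⁻¹ := by
  simp [W]

variable {V : Type*} [AddCommGroup V] {E : Set V}

/-- lamp part of the commutator -/
noncomputable def cl (x y : Gam E) : AddMonoidAlgebra ℤ V :=
  x.lamp + T x.pos * y.lamp - T y.pos * x.lamp - y.lamp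

lemma lift_W_gam (g : Fin 3 → Gam E) (k : ℕ) :
    FreeGroup.lift g (W k) = ⟨0, res E ((T (-(k • (g 2).pos)) - T (k • (g 2).pos)) *
      (rev (cl (g 0) (g 1)) * cl (g 0) (g 1))), 0⟩ := by
  rw [lift_W]
  exact Gam.word_value _ _ _ _ _ rfl

lemma lift_W_eq_one_iff (g : Fin 3 → Gam E) (k : ℕ) :
    FreeGroup.lift g (W k) = 1 ↔ ∀ r ∈ E,
      (rev (cl (g 0) (g 1)) * cl (g 0) (g 1)).coeff (r + k • (g 2).pos) =
      (rev (cl (g 0) (g 1)) * cl (g 0) (g 1)).coeff (r - k • (g 2).pos) := by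
  rw [lift_W_gam]
  constructor
  · intro h r hr
    have h1 := congrArg Gam.cen h
    have h2 := (res_eq_zero_iff E _).1 h1 r hr
    rw [sub_mul, AddMonoidAlgebra.coeff_sub, Finsupp.sub_apply, coeff_T_mul, coeff_T_mul,
      sub_neg_eq_add] at h2
    exact sub_eq_zero.1 h2
  · intro h
    apply Gam.ext
    · rfl
    · show res E _ = 0
      rw [res_eq_zero_iff]
      intro r hr
      rw [sub_mul, AddMonoidAlgebra.coeff_sub, Finsupp.sub_apply, coeff_T_mul, coeff_T_mul,
        sub_neg_eq_add, h r hr, sub_self]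
    · rfl

/-- position of a product -/
lemma rprod_pos {Ω : Type*} (s : Ω → Gam E) {n : ℕ} (ω : Fin n → Ω) :
    (rprod s ω).pos = ∑ k, (s (ω k)).pos := by
  induction n with
  | zero => rw [rprod_zero]; simp
  | succ n ih =>
    rw [← Fin.cons_self_tail ω, rprod_cons, Gam.mul_pos', ih, Fin.sum_univ_succ]
    simp

lemma rev_mul_self_coeff_zero (u : AddMonoidAlgebra ℤ V) :
    (rev u * u).coeff 0 = ∑ p ∈ u.coeff.support, (u.coeff p) ^ 2 := by
  classical
  rw [mul_comm, AddMonoidAlgebra.coeff_mul]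
  unfold Finsupp.sum
  apply Finset.sum_congr rfl
  intro p hp
  beta_reduce
  rw [Finset.sum_eq_single (-p)]
  · rw [if_pos (add_neg_cancel p), coeff_rev, neg_neg]; ring
  · intro b _ hb
    rw [if_neg]
    intro h
    exact hb (eq_neg_of_add_eq_zero_right h)
  · intro h
    rw [if_pos (add_neg_cancel p)]
    rw [Finsupp.notMem_support_iff] at h
    rw [h, mul_zero]

lemma rev_mul_self_coeff_zero_ne {u : AddMonoidAlgebra ℤ V} (hu : u ≠ 0) :
    (rev u * u).coeff 0 ≠ 0 := by
  rw [rev_mul_self_coeff_zero]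
  apply ne_of_gt
  apply Finset.sum_pos
  · intro p hp
    have := Finsupp.mem_support_iff.1 hp
    positivity
  · rw [Finsupp.support_nonempty_iff]
    intro h
    exact hu (AddMonoidAlgebra.coeff_eq_zero.1 h)

/-- the support of `u* u` consists of differences -/
lemma rev_mul_self_coeff_ne {u : AddMonoidAlgebra ℤ V} {r : V} (h : (rev u * u).coeff r ≠ 0) :
    ∃ p ∈ u.coeff.support, ∃ q ∈ u.coeff.support, r = q - p := by
  classical
  rw [AddMonoidAlgebra.coeff_mul] at h
  unfold Finsupp.sum at h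
  obtain ⟨p, hp, h1⟩ := Finset.exists_ne_zero_of_sum_ne_zero h
  obtain ⟨q, hq, h2⟩ := Finset.exists_ne_zero_of_sum_ne_zero h1
  refine ⟨-p, ?_, q, hq, ?_⟩
  · rw [Finsupp.mem_support_iff] at hp ⊢
    rwa [coeff_rev] at hp
  · by_contra hne
    apply h2
    beta_reduce
    rw [if_neg]
    intro h3
    apply hne
    rw [← h3]; abel

lemma coeff_T_mul_ne {v : V} {u : AddMonoidAlgebra ℤ V} {r : V} (h : (T v * u).coeff r ≠ 0) :
    r - v ∈ u.coeff.support := by
  rw [coeff_T_mul] at h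
  exact Finsupp.mem_support_iff.2 h

/-- support of the lamp part of the commutator, as a finite set -/
lemma cl_support [DecidableEq V] (x y : Gam E) :
    (cl x y).coeff.support ⊆ x.lamp.coeff.support ∪ (y.lamp.coeff.support.image (· + x.pos)) ∪
      (x.lamp.coeff.support.image (· + y.pos)) ∪ y.lamp.coeff.support := by
  intro p hp
  rw [Finsupp.mem_support_iff, cl, AddMonoidAlgebra.coeff_sub, Finsupp.sub_apply,
    AddMonoidAlgebra.coeff_sub, Finsupp.sub_apply, AddMonoidAlgebra.coeff_add,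
    Finsupp.add_apply] at hp
  simp only [mem_union, mem_image]
  by_contra hcon
  push Not at hcon
  obtain ⟨⟨⟨h1, h2⟩, h3⟩, h4⟩ := hcon
  apply hp
  have e1 : x.lamp.coeff p = 0 := Finsupp.notMem_support_iff.1 h1
  have e4 : y.lamp.coeff p = 0 := Finsupp.notMem_support_iff.1 h4
  have e2 : (T x.pos * y.lamp).coeff p = 0 := by
    by_contra h
    exact h2 _ (coeff_T_mul_ne h) (by abel)
  have e3 : (T y.pos * x.lamp).coeff p = 0 := by
    by_contra h
    exact h3 _ (coeff_T_mul_ne h) (by abel)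
  rw [e1, e2, e3, e4]; ring

lemma cl_support_card [DecidableEq V] (x y : Gam E) {n : ℕ} (hx : x.lamp.coeff.support.card ≤ n)
    (hy : y.lamp.coeff.support.card ≤ n) : (cl x y).coeff.support.card ≤ 4 * n := by
  refine le_trans (Finset.card_le_card (cl_support x y)) ?_
  have h1 := Finset.card_union_le (x.lamp.coeff.support ∪ (y.lamp.coeff.support.image (· + x.pos)) ∪
      (x.lamp.coeff.support.image (· + y.pos))) y.lamp.coeff.support
  have h2 := Finset.card_union_le (x.lamp.coeff.support ∪ (y.lamp.coeff.support.image (· + x.pos)))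
      (x.lamp.coeff.support.image (· + y.pos))
  have h3 := Finset.card_union_le x.lamp.coeff.support (y.lamp.coeff.support.image (· + x.pos))
  have h4 : (y.lamp.coeff.support.image (· + x.pos)).card ≤ n := le_trans Finset.card_image_le hy
  have h5 : (x.lamp.coeff.support.image (· + y.pos)).card ≤ n := le_trans Finset.card_image_le hx
  omega

/-- number of lit lamps -/
lemma rprod_lamp_card {Ω : Type*} (s : Ω → Gam E)
    (hs : ∀ o, (s o).lamp.coeff.support ⊆ {0}) {n : ℕ} (ω : Fin n → Ω) :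
    (rprod s ω).lamp.coeff.support.card ≤ n := by
  classical
  induction n with
  | zero => rw [rprod_zero]; simp
  | succ n ih =>
    rw [← Fin.cons_self_tail ω, rprod_cons, Gam.mul_lamp, AddMonoidAlgebra.coeff_add]
    refine le_trans (Finset.card_le_card Finsupp.support_add) ?_
    refine le_trans (Finset.card_union_le _ _) ?_
    have h1 : (s (ω 0)).lamp.coeff.support.card ≤ 1 :=
      le_trans (Finset.card_le_card (hs _)) (by simp)
    have h2 : (T (s (ω 0)).pos * (rprod s (Fin.tail ω)).lamp).coeff.support.card ≤ n := by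
      refine le_trans (Finset.card_le_card (t := (rprod s (Fin.tail ω)).lamp.coeff.support.image
        (· + (s (ω 0)).pos)) ?_) (le_trans Finset.card_image_le (ih _))
      intro p hp
      rw [Finset.mem_image]
      exact ⟨_, coeff_T_mul_ne (Finsupp.mem_support_iff.1 hp), by abel⟩
    omega

end H790W
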