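import Mathlib
import Pool.Agent.H790W.Grp
import Pool.Agent.H790W.Prob
import Pool.Agent.H790W.Anti
import Pool.Agent.H790W.Word

/-!
Estimates for walks on `Gam E`, `E ⊆ ℤ^6`.
-/

namespace H790W

open Finset

/-- Step data: at each step the walk either stays (`z` possibilities) or moves by a uniform vector
of `{±1}^6`, and it may change the lamp at its current position. -/
structure Steps6 {E : Set V6} {Ω : Type*} [Fintype Ω] (s : Ω → Gam E) (z : ℕ) : Prop where
  lamp0 : ∀ o, (s o).lamp.coeff.support ⊆ {0}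
  posb : ∀ o i, |(s o).pos i| ≤ 1
  rho : ∑ o, T ((s o).pos) = (z : AddMonoidAlgebra ℤ V6) + ∑ q : Fin 6 → Bool, T (dir q)
  card : Fintype.card Ω = z + 64

/-- the box of radius `ρ` -/
noncomputable def boxF (ρ : ℕ) : Finset V6 := Fintype.piFinset fun _ => Finset.Icc (-(ρ : ℤ)) ρ

lemma mem_boxF {ρ : ℕ} {r : V6} : r ∈ boxF ρ ↔ ∀ i, |r i| ≤ ρ := by
  simp [boxF, Fintype.mem_piFinset, abs_le]

lemma card_boxF (ρ : ℕ) : (boxF ρ).card = (2 * ρ + 1) ^ 6 := by
  rw [boxF, Fintype.card_piFinset]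
  simp only [Int.card_Icc, Finset.prod_const, Finset.card_univ, Fintype.card_fin]
  congr 1
  omega

variable {E : Set V6} {Ω : Type*} [Fintype Ω] {s : Ω → Gam E} {z : ℕ}

lemma pos_bound (h : Steps6 s z) {n : ℕ} (ω : Fin n → Ω) (i : Fin 6) :
    |(rprod s ω).pos i| ≤ n := by
  rw [rprod_pos, Finset.sum_apply]
  refine le_trans (Finset.abs_sum_le_sum_abs _ _) ?_
  refine le_trans (Finset.sum_le_sum (fun k _ => h.posb (ω k) i)) ?_
  simp

lemma lamp_bound (h : Steps6 s z) {n : ℕ} (ω : Fin n → Ω) :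
    ∀ p ∈ (rprod s ω).lamp.coeff.support, ∀ i, |p i| ≤ n := by
  induction n with
  | zero => rw [rprod_zero]; simp
  | succ n ih =>
    intro p hp i
    rw [← Fin.cons_self_tail ω, rprod_cons, Gam.mul_lamp, AddMonoidAlgebra.coeff_add] at hp
    have hp' := Finsupp.support_add hp
    rw [Finset.mem_union] at hp'
    rcases hp' with hp' | hp'
    · have := h.lamp0 _ hp'
      rw [Finset.mem_singleton] at this
      rw [this]
      simp only [Pi.zero_apply, abs_zero, Nat.cast_add, Nat.cast_one]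
      positivity
    · have h1 := coeff_T_mul_ne (Finsupp.mem_support_iff.1 hp')
      have h2 := ih _ _ h1 i
      have h3 := h.posb (ω 0) i
      rw [Pi.sub_apply] at h2
      have h4 := abs_le.1 h2
      have h5 := abs_le.1 h3
      rw [abs_le]
      push_cast
      constructor <;> linarith [h4.1, h4.2, h5.1, h5.2]

lemma cl_bound (h : Steps6 s z) {n : ℕ} (ω ω' : Fin n → Ω) :
    ∀ p ∈ (cl (rprod s ω) (rprod s ω')).coeff.support, ∀ i, |p i| ≤ 2 * n := by
  intro p hp i
  have hp' := cl_support _ _ hp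
  simp only [mem_union, mem_image] at hp'
  have hX := pos_bound h ω i
  have hY := pos_bound h ω' i
  rcases hp' with ((h1 | ⟨q, h1, rfl⟩) | ⟨q, h1, rfl⟩) | h1
  · have := lamp_bound h ω p h1 i
    linarith [abs_nonneg (p i)]
  · have := lamp_bound h ω' q h1 i
    rw [Pi.add_apply]
    refine le_trans (abs_add_le _ _) (by linarith)
  · have := lamp_bound h ω q h1 i
    rw [Pi.add_apply]
    refine le_trans (abs_add_le _ _) (by linarith)
  · have := lamp_bound h ω' p h1 i
    linarith [abs_nonneg (p i)]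

/-- the anti-concentration constant -/
noncomputable def KK (z : ℕ) : ℝ := 6 * ((z : ℝ) + 64) ^ 3 / 64 ^ 3

lemma KK_pos (z : ℕ) : 0 < KK z := by unfold KK; positivity

open Classical in
lemma pos_count (h : Steps6 s z) (n : ℕ) (c : V6) :
    ((univ.filter fun ω : Fin n → Ω => (rprod s ω).pos = c).card : ℝ) ≤
      KK z * (Fintype.card Ω : ℝ) ^ n / ((n : ℝ) + 1) ^ 3 := by
  have h1 := anti (fun o => (s o).pos) z h.rho n c
  have h2 : (univ.filter fun ω : Fin n → Ω => (rprod s ω).pos = c) =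
      (univ.filter fun ω : Fin n → Ω => ∑ k, (s (ω k)).pos = c) := by
    apply Finset.filter_congr
    intro ω _
    rw [rprod_pos]
  rw [h2]
  have h3 : ((64 ^ 3 * (n + 1) ^ 3 * (univ.filter fun ω : Fin n → Ω => ∑ k, (s (ω k)).pos = c).card
      : ℕ) : ℝ) ≤ ((6 * (z + 64) ^ (n + 3) : ℕ) : ℝ) := by
    exact_mod_cast (by convert h1)
  push_cast at h3
  rw [le_div_iff₀ (by positivity), h.card]
  unfold KK
  push_cast
  rw [pow_add] at h3
  have h4 : (0 : ℝ) < 64 ^ 3 := by norm_num
  rw [div_mul_eq_mul_div, le_div_iff₀ h4]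
  linarith

open Classical in
lemma pos_count_finset (h : Steps6 s z) (n : ℕ) (F : Finset V6) :
    ((univ.filter fun ω : Fin n → Ω => (rprod s ω).pos ∈ F).card : ℝ) ≤
      F.card * (KK z * (Fintype.card Ω : ℝ) ^ n / ((n : ℝ) + 1) ^ 3) := by
  have h1 : (univ.filter fun ω : Fin n → Ω => (rprod s ω).pos ∈ F) ⊆
      F.biUnion fun c => (univ.filter fun ω : Fin n → Ω => (rprod s ω).pos = c) := by
    intro ω hω
    rw [Finset.mem_filter] at hω
    rw [Finset.mem_biUnion]
    exact ⟨_, hω.2, by simp⟩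
  have h2 := (Finset.card_le_card h1).trans Finset.card_biUnion_le
  calc ((univ.filter fun ω : Fin n → Ω => (rprod s ω).pos ∈ F).card : ℝ)
      ≤ ((∑ c ∈ F, (univ.filter fun ω : Fin n → Ω => (rprod s ω).pos = c).card : ℕ) : ℝ) := by
        exact_mod_cast h2
    _ = ∑ c ∈ F, ((univ.filter fun ω : Fin n → Ω => (rprod s ω).pos = c).card : ℝ) := by
        push_cast; rfl
    _ ≤ ∑ _c ∈ F, (KK z * (Fintype.card Ω : ℝ) ^ n / ((n : ℝ) + 1) ^ 3) :=
        Finset.sum_le_sum fun c _ => pos_count h n c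
    _ = _ := by rw [Finset.sum_const, nsmul_eq_mul]

open Classical in
/-- **Upper bound** for the probability that the word `W 1` is violated. -/
lemma bad_upper (h : Steps6 s z) (n : ℕ) (Ef : Finset V6)
    (hE : ∀ r ∈ E, (∀ i, |r i| ≤ 5 * n) → r ∈ Ef) :
    ((univ.filter fun ω : Fin 3 → Fin n → Ω =>
        FreeGroup.lift (fun i => rprod s (ω i)) (W 1) ≠ 1).card : ℝ) /
        (((Fintype.card Ω : ℝ) ^ n) ^ 3) ≤ 32 * Ef.card * KK z / ((n : ℝ) + 1) := by
  set Bad := univ.filter fun ω : Fin 3 → Fin n → Ω =>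
        FreeGroup.lift (fun i => rprod s (ω i)) (W 1) ≠ 1 with hBad
  set q : ℝ := KK z * (Fintype.card Ω : ℝ) ^ n / ((n : ℝ) + 1) ^ 3 with hq
  have hq0 : 0 ≤ q := by have := KK_pos z; positivity
  -- fibres over the first two walks
  have hfib : ∀ a ∈ (univ : Finset ((Fin n → Ω) × (Fin n → Ω))),
      ((Bad.filter fun ω => (ω 0, ω 1) = a).card : ℝ) ≤ (32 * n ^ 2 * Ef.card : ℝ) * q := by
    rintro ⟨ω0, ω1⟩ _
    set U := (cl (rprod s ω0) (rprod s ω1)).coeff.support with hU
    have hUc : U.card ≤ 4 * n :=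
      cl_support_card _ _ (rprod_lamp_card s h.lamp0 ω0) (rprod_lamp_card s h.lamp0 ω1)
    set F : Finset V6 := (((U ×ˢ U) ×ˢ Ef).image fun t => t.1.1 - t.1.2 + t.2) ∪
      (((U ×ˢ U) ×ˢ Ef).image fun t => t.1.1 - t.1.2 - t.2) with hF
    have hFc : F.card ≤ 32 * n ^ 2 * Ef.card := by
      refine le_trans (Finset.card_union_le _ _) ?_
      have h1 : (((U ×ˢ U) ×ˢ Ef).image fun t => t.1.1 - t.1.2 + t.2).card ≤
          (4 * n) * (4 * n) * Ef.card := by
        refine le_trans Finset.card_image_le ?_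
        rw [Finset.card_product, Finset.card_product]
        exact Nat.mul_le_mul_right _ (Nat.mul_le_mul hUc hUc)
      have h2 : (((U ×ˢ U) ×ˢ Ef).image fun t => t.1.1 - t.1.2 - t.2).card ≤
          (4 * n) * (4 * n) * Ef.card := by
        refine le_trans Finset.card_image_le ?_
        rw [Finset.card_product, Finset.card_product]
        exact Nat.mul_le_mul_right _ (Nat.mul_le_mul hUc hUc)
      nlinarith
    have hmap : ((Bad.filter fun ω => (ω 0, ω 1) = (ω0, ω1)).card : ℝ) ≤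
        ((univ.filter fun ω : Fin n → Ω => (rprod s ω).pos ∈ F).card : ℝ) := by
      have : (Bad.filter fun ω => (ω 0, ω 1) = (ω0, ω1)).card ≤
        (univ.filter fun ω : Fin n → Ω => (rprod s ω).pos ∈ F).card := by
        apply Finset.card_le_card_of_injOn (fun ω => ω 2)
        · intro ω hω
          rw [Finset.mem_coe, Finset.mem_filter, hBad, Finset.mem_filter] at hω
          obtain ⟨⟨_, hbad⟩, heq⟩ := hω
          have h0 : ω 0 = ω0 := (Prod.ext_iff.1 heq).1
          have h1 : ω 1 = ω1 := (Prod.ext_iff.1 heq).2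
          rw [Finset.mem_coe, Finset.mem_filter]
          refine ⟨Finset.mem_univ _, ?_⟩
          rw [Ne, lift_W_eq_one_iff] at hbad
          push Not at hbad
          obtain ⟨r, hrE, hr⟩ := hbad
          rw [h0, h1, one_smul] at hr
          set Z := (rprod s (ω 2)).pos with hZ
          have hZb : ∀ i, |Z i| ≤ n := pos_bound h (ω 2)
          have hdisj : (rev (cl (rprod s ω0) (rprod s ω1)) *
              cl (rprod s ω0) (rprod s ω1)).coeff (r + Z) ≠ 0 ∨
              (rev (cl (rprod s ω0) (rprod s ω1)) *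
              cl (rprod s ω0) (rprod s ω1)).coeff (r - Z) ≠ 0 := by
            by_contra hcon
            push Not at hcon
            exact hr (hcon.1.trans hcon.2.symm)
          rcases hdisj with hd | hd
          · obtain ⟨p, hp, t, ht, hpt⟩ := rev_mul_self_coeff_ne hd
            have hr5 : ∀ i, |r i| ≤ 5 * n := by
              intro i
              have e1 : r i = t i - p i - Z i := by
                have := congrFun hpt i
                simp only [Pi.add_apply, Pi.sub_apply] at this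
                linarith
              have e2 := abs_le.1 (cl_bound h ω0 ω1 p hp i)
              have e3 := abs_le.1 (cl_bound h ω0 ω1 t ht i)
              have e4 := abs_le.1 (hZb i)
              rw [e1, abs_le]
              constructor <;> linarith [e2.1, e2.2, e3.1, e3.2, e4.1, e4.2]
            have hrEf := hE r hrE hr5
            rw [hF, Finset.mem_union]
            right
            rw [Finset.mem_image]
            refine ⟨((t, p), r), ?_, ?_⟩
            · simp only [Finset.mem_product]; exact ⟨⟨ht, hp⟩, hrEf⟩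
            · show t - p - r = Z
              rw [← hpt]; abel
          · obtain ⟨p, hp, t, ht, hpt⟩ := rev_mul_self_coeff_ne hd
            have hr5 : ∀ i, |r i| ≤ 5 * n := by
              intro i
              have e1 : r i = t i - p i + Z i := by
                have := congrFun hpt i
                simp only [Pi.sub_apply] at this
                linarith
              have e2 := abs_le.1 (cl_bound h ω0 ω1 p hp i)
              have e3 := abs_le.1 (cl_bound h ω0 ω1 t ht i)
              have e4 := abs_le.1 (hZb i)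
              rw [e1, abs_le]
              constructor <;> linarith [e2.1, e2.2, e3.1, e3.2, e4.1, e4.2]
            have hrEf := hE r hrE hr5
            rw [hF, Finset.mem_union]
            left
            rw [Finset.mem_image]
            refine ⟨((p, t), r), ?_, ?_⟩
            · simp only [Finset.mem_product]; exact ⟨⟨hp, ht⟩, hrEf⟩
            · show p - t + r = Z
              have : r = t - p + Z := by rw [← hpt]; abel
              rw [this]; abel
        · intro ω hω ω' hω' hh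
          rw [Finset.mem_coe, Finset.mem_filter] at hω hω'
          have h0 : ω 0 = ω' 0 := (Prod.ext_iff.1 hω.2).1.trans (Prod.ext_iff.1 hω'.2).1.symm
          have h1 : ω 1 = ω' 1 := (Prod.ext_iff.1 hω.2).2.trans (Prod.ext_iff.1 hω'.2).2.symm
          funext i
          fin_cases i
          · exact h0
          · exact h1
          · exact hh
      exact_mod_cast this
    calc ((Bad.filter fun ω => (ω 0, ω 1) = (ω0, ω1)).card : ℝ)
        ≤ _ := hmap
      _ ≤ F.card * q := pos_count_finset h n F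
      _ ≤ (32 * n ^ 2 * Ef.card : ℝ) * q := by
          apply mul_le_mul_of_nonneg_right _ hq0
          exact_mod_cast hFc
  have hsum : (Bad.card : ℝ) ≤ ((Fintype.card Ω : ℝ) ^ n) ^ 2 * ((32 * n ^ 2 * Ef.card : ℝ) * q) := by
    rw [Finset.card_eq_sum_card_fiberwise (f := fun ω => (ω 0, ω 1)) (t := univ)
      (fun _ _ => Finset.mem_coe.2 (Finset.mem_univ _))]
    push_cast
    refine le_trans (Finset.sum_le_sum hfib) ?_
    rw [Finset.sum_const, nsmul_eq_mul, Finset.card_univ]
    apply le_of_eq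
    congr 1
    rw [Fintype.card_prod]
    simp only [Fintype.card_fun, Fintype.card_fin]
    push_cast
    ring
  have hΩ : (0 : ℝ) < Fintype.card Ω := by
    rw [h.card]; push_cast; positivity
  rw [div_le_iff₀ (by positivity)]
  refine le_trans hsum ?_
  rw [hq]
  have hn2 : (n : ℝ) ^ 2 ≤ ((n : ℝ) + 1) ^ 2 := by nlinarith [Nat.cast_nonneg (α := ℝ) n]
  have hK := KK_pos z
  have hn1 : (0 : ℝ) < (n : ℝ) + 1 := by positivity
  calc ((Fintype.card Ω : ℝ) ^ n) ^ 2 * ((32 * n ^ 2 * Ef.card : ℝ) *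
        (KK z * (Fintype.card Ω : ℝ) ^ n / ((n : ℝ) + 1) ^ 3))
      = (32 * Ef.card * KK z * ((Fintype.card Ω : ℝ) ^ n) ^ 3) * ((n : ℝ) ^ 2 / ((n : ℝ) + 1) ^ 3) := by
        field_simp
    _ ≤ (32 * Ef.card * KK z * ((Fintype.card Ω : ℝ) ^ n) ^ 3) * (1 / ((n : ℝ) + 1)) := by
        apply mul_le_mul_of_nonneg_left
        · rw [div_le_div_iff₀ (by positivity) hn1]
          nlinarith
        · positivity
    _ = _ := by field_simp

lemma bad_upper' (h : Steps6 s z) (n : ℕ) (Ef : Finset V6)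
    (hE : ∀ r ∈ E, (∀ i, |r i| ≤ 5 * n) → r ∈ Ef) :
    (badCount s (W 1) n : ℝ) / (((Fintype.card Ω : ℝ) ^ n) ^ 3) ≤
      32 * Ef.card * KK z / ((n : ℝ) + 1) := by
  have := bad_upper h n Ef hE
  unfold badCount
  convert this

/-- If the lags outside a small box are all active, then the word is violated as soon as the
commutator is nontrivial modulo the centre and the third walk leaves the box. -/
lemma violated (h : Steps6 s z) {n : ℕ} (ρ : ℕ)
    (hE : ∀ r : V6, (∀ i, |r i| ≤ 5 * n) → (∃ i, (ρ : ℤ) < |r i|) → r ∈ E)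
    (ω : Fin 3 → Fin n → Ω) (hu : cl (rprod s (ω 0)) (rprod s (ω 1)) ≠ 0)
    (hZ : (rprod s (ω 2)).pos ∉ boxF ρ) :
    FreeGroup.lift (fun i => rprod s (ω i)) (W 1) ≠ 1 := by
  rw [Ne, lift_W_eq_one_iff]
  intro hall
  rw [one_smul] at hall
  set Z := (rprod s (ω 2)).pos with hZdef
  set u := cl (rprod s (ω 0)) (rprod s (ω 1)) with hudef
  set A := rev u * u with hA
  rw [mem_boxF] at hZ
  push Not at hZ
  obtain ⟨i, hi⟩ := hZ
  have hA0 : A.coeff 0 ≠ 0 := rev_mul_self_coeff_zero_ne hu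
  obtain ⟨σ, hσ, hσZ⟩ : ∃ σ : ℤ, (σ = 1 ∨ σ = -1) ∧ (ρ : ℤ) < σ * Z i := by
    rcases lt_abs.1 hi with h1 | h1
    · exact ⟨1, Or.inl rfl, by linarith⟩
    · exact ⟨-1, Or.inr rfl, by linarith⟩
  have hne : A.coeff.support.Nonempty := ⟨0, Finsupp.mem_support_iff.2 hA0⟩
  obtain ⟨α, hα, hmax⟩ := Finset.exists_max_image A.coeff.support (fun p : V6 => σ * p i) hne
  have hα0 : 0 ≤ σ * α i := by
    have := hmax 0 (Finsupp.mem_support_iff.2 hA0)
    simpa using this
  have hρ0 : (0 : ℤ) ≤ ρ := Int.natCast_nonneg ρ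
  -- the witness
  have hr1 : A.coeff (α + Z + Z) = 0 := by
    by_contra hcon
    have := hmax _ (Finsupp.mem_support_iff.2 hcon)
    simp only [Pi.add_apply] at this
    linarith
  have hr2 : A.coeff (α + Z - Z) ≠ 0 := by
    rw [add_sub_cancel_right]
    exact Finsupp.mem_support_iff.1 hα
  have hrE : α + Z ∈ E := by
    apply hE
    · intro j
      obtain ⟨p, hp, t, ht, hpt⟩ := rev_mul_self_coeff_ne (Finsupp.mem_support_iff.1 hα)
      have e1 : α j = t j - p j := by rw [hpt]; rfl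
      have e2 := abs_le.1 (cl_bound h (ω 0) (ω 1) p hp j)
      have e3 := abs_le.1 (cl_bound h (ω 0) (ω 1) t ht j)
      have e4 := abs_le.1 (pos_bound h (ω 2) j)
      rw [Pi.add_apply, e1, abs_le]
      constructor <;> linarith [e2.1, e2.2, e3.1, e3.2, e4.1, e4.2]
    · refine ⟨i, ?_⟩
      rw [Pi.add_apply]
      have : (ρ : ℤ) < σ * (α i + Z i) := by linarith
      rcases hσ with rfl | rfl
      · exact lt_of_lt_of_le (by linarith) (le_abs_self _)
      · exact lt_of_lt_of_le (by linarith) (neg_le_abs _)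
  have := hall _ hrE
  rw [hr1] at this
  exact hr2 this.symm

open Classical in
/-- **Lower bound** for the probability that the word `W 1` is violated. -/
lemma bad_lower (h : Steps6 s z) (m : ℕ) (ρ : ℕ) (o1 oa : Ω) (h1 : s o1 = 1)
    (ha1 : (s oa).lamp = 1) (ha2 : (s oa).pos = 0)
    (hE : ∀ r : V6, (∀ i, |r i| ≤ 5 * ((m + 1 : ℕ) : ℤ)) → (∃ i, (ρ : ℤ) < |r i|) → r ∈ E)
    (hb1 : KK z / (((m + 1 : ℕ) : ℝ) + 1) ^ 3 ≤ 1 / 2)
    (hb2 : (2 * (ρ : ℝ) + 1) ^ 6 * (KK z / (((m + 1 : ℕ) : ℝ) + 1) ^ 3) ≤ 1 / 2) :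
    1 / (4 * (Fintype.card Ω : ℝ)) ≤
    ((univ.filter fun ω : Fin 3 → Fin (m + 1) → Ω =>
        FreeGroup.lift (fun i => rprod s (ω i)) (W 1) ≠ 1).card : ℝ) /
        (((Fintype.card Ω : ℝ) ^ (m + 1)) ^ 3) := by
  set Bad := univ.filter fun ω : Fin 3 → Fin (m + 1) → Ω =>
        FreeGroup.lift (fun i => rprod s (ω i)) (W 1) ≠ 1 with hBad
  set N : ℝ := (Fintype.card Ω : ℝ) ^ (m + 1) with hN
  have hΩ : (0 : ℝ) < Fintype.card Ω := by
    rw [h.card]; push_cast; positivity
  have hNpos : 0 < N := by positivity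
  set Y0 := univ.filter fun ω : Fin (m + 1) → Ω => ¬ (rprod s ω).pos = 0 with hY0
  set Z0 := univ.filter fun ω : Fin (m + 1) → Ω => ¬ (rprod s ω).pos ∈ boxF ρ with hZ0
  have hcardU : ((univ : Finset (Fin (m + 1) → Ω)).card : ℝ) = N := by
    rw [Finset.card_univ]; simp [hN]
  have hY : N / 2 ≤ (Y0.card : ℝ) := by
    have e1 := Finset.card_filter_add_card_filter_not (s := (univ : Finset (Fin (m + 1) → Ω)))
      (fun ω => (rprod s ω).pos = 0)
    have e2 := pos_count h (m + 1) 0
    have e3 : ((univ.filter fun ω : Fin (m + 1) → Ω => (rprod s ω).pos = 0).card : ℝ) +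
        (Y0.card : ℝ) = N := by
      rw [← hcardU]; exact_mod_cast e1
    have e4 : KK z * (Fintype.card Ω : ℝ) ^ (m + 1) / (((m + 1 : ℕ) : ℝ) + 1) ^ 3 ≤ N / 2 := by
      have : KK z * (Fintype.card Ω : ℝ) ^ (m + 1) / (((m + 1 : ℕ) : ℝ) + 1) ^ 3 =
          (KK z / (((m + 1 : ℕ) : ℝ) + 1) ^ 3) * N := by rw [hN]; ring
      rw [this]
      nlinarith
    linarith
  have hZc : N / 2 ≤ (Z0.card : ℝ) := by
    have e1 := Finset.card_filter_add_card_filter_not (s := (univ : Finset (Fin (m + 1) → Ω)))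
      (fun ω => (rprod s ω).pos ∈ boxF ρ)
    have e2 := pos_count_finset h (m + 1) (boxF ρ)
    have e3 : ((univ.filter fun ω : Fin (m + 1) → Ω => (rprod s ω).pos ∈ boxF ρ).card : ℝ) +
        (Z0.card : ℝ) = N := by
      rw [← hcardU]; exact_mod_cast e1
    have e4 : ((boxF ρ).card : ℝ) * (KK z * (Fintype.card Ω : ℝ) ^ (m + 1) /
        (((m + 1 : ℕ) : ℝ) + 1) ^ 3) ≤ N / 2 := by
      have : ((boxF ρ).card : ℝ) * (KK z * (Fintype.card Ω : ℝ) ^ (m + 1) /
        (((m + 1 : ℕ) : ℝ) + 1) ^ 3) =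
          ((2 * (ρ : ℝ) + 1) ^ 6 * (KK z / (((m + 1 : ℕ) : ℝ) + 1) ^ 3)) * N := by
        rw [hN, card_boxF]; push_cast; ring
      rw [this]
      nlinarith
    linarith
  -- injection
  have hne : ∀ (r : Fin m → Ω) (ω' : Fin (m + 1) → Ω), (rprod s ω').pos ≠ 0 →
      cl (rprod s (Fin.cons (α := fun _ => Ω) o1 r)) (rprod s ω') = 0 →
      cl (rprod s (Fin.cons (α := fun _ => Ω) oa r)) (rprod s ω') ≠ 0 := by
    intro r ω' hpos hz hz'
    rw [rprod_cons] at hz hz'
    unfold cl at hz hz'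
    simp only [Gam.mul_lamp, Gam.mul_pos', h1, ha1, ha2, Gam.one_lamp, Gam.one_pos, T_zero,
      zero_add] at hz hz'
    have e : (1 : AddMonoidAlgebra ℤ V6) - T (rprod s ω').pos = 0 := by
      linear_combination hz' - hz
    have e2 := congrArg (fun v => v.coeff 0) e
    simp only [AddMonoidAlgebra.coeff_sub, Finsupp.sub_apply, AddMonoidAlgebra.coeff_one_zero,
      AddMonoidAlgebra.coeff_zero, Finsupp.coe_zero, Pi.zero_apply, T,
      AddMonoidAlgebra.coeff_single, Finsupp.single_apply, if_neg hpos] at e2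
    norm_num at e2
  let pick : (Fin m → Ω) → (Fin (m + 1) → Ω) → Ω := fun r ω' =>
    if cl (rprod s (Fin.cons (α := fun _ => Ω) o1 r)) (rprod s ω') = 0 then oa else o1
  have hpick : ∀ (r : Fin m → Ω) (ω' : Fin (m + 1) → Ω), (rprod s ω').pos ≠ 0 →
      cl (rprod s (Fin.cons (α := fun _ => Ω) (pick r ω') r)) (rprod s ω') ≠ 0 := by
    intro r ω' hpos
    by_cases hc : cl (rprod s (Fin.cons (α := fun _ => Ω) o1 r)) (rprod s ω') = 0
    · simp only [pick, if_pos hc]
      exact hne r ω' hpos hc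
    · simp only [pick, if_neg hc]
      exact hc
  have hcard : ((univ : Finset (Fin m → Ω)) ×ˢ (Y0 ×ˢ Z0)).card ≤ Bad.card := by
    apply Finset.card_le_card_of_injOn (fun t =>
      (![(Fin.cons (α := fun _ => Ω) (pick t.1 t.2.1) t.1 : Fin (m + 1) → Ω), t.2.1, t.2.2] :
        Fin 3 → Fin (m + 1) → Ω))
    · rintro ⟨r, ω', ω''⟩ ht
      rw [Finset.mem_coe, Finset.mem_product, Finset.mem_product] at ht
      obtain ⟨_, hy, hz⟩ := ht
      simp only at hy hz
      rw [hY0, Finset.mem_filter] at hy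
      rw [hZ0, Finset.mem_filter] at hz
      rw [Finset.mem_coe, hBad, Finset.mem_filter]
      refine ⟨Finset.mem_univ _, ?_⟩
      apply violated h ρ hE
      · exact hpick r ω' hy.2
      · exact hz.2
    · rintro ⟨r, ω', ω''⟩ _ ⟨r2, ω2', ω2''⟩ _ heq
      have e0 := congrFun heq 0
      have e1 := congrFun heq 1
      have e2 := congrFun heq 2
      simp only [Matrix.cons_val_zero] at e0
      have e0' := (Fin.cons_injective2 e0).2
      have e1' : ω' = ω2' := e1
      have e2' : ω'' = ω2'' := e2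
      rw [e0', e1', e2']
  have hcard' : (Fintype.card Ω : ℝ) ^ m * ((Y0.card : ℝ) * (Z0.card : ℝ)) ≤ (Bad.card : ℝ) := by
    have : ((univ : Finset (Fin m → Ω)) ×ˢ (Y0 ×ˢ Z0)).card =
        Fintype.card Ω ^ m * (Y0.card * Z0.card) := by
      rw [Finset.card_product, Finset.card_product, Finset.card_univ]; simp
    rw [this] at hcard
    exact_mod_cast hcard
  rw [le_div_iff₀ (by positivity)]
  refine le_trans ?_ hcard'
  have e5 : 1 / (4 * (Fintype.card Ω : ℝ)) * N ^ 3 =
      (Fintype.card Ω : ℝ) ^ m * ((N / 2) * (N / 2)) := by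
    have : N = (Fintype.card Ω : ℝ) * (Fintype.card Ω : ℝ) ^ m := by rw [hN, pow_succ]; ring
    rw [show N ^ 3 = N * N * N by ring]
    conv_lhs => rw [show N * N * N = ((Fintype.card Ω : ℝ) * (Fintype.card Ω : ℝ) ^ m) * (N * N) by
      rw [← this]; ring]
    field_simp
    ring
  rw [e5]
  apply mul_le_mul_of_nonneg_left _ (by positivity)
  apply mul_le_mul hY hZc (by positivity) (by positivity)

lemma bad_lower' (h : Steps6 s z) (m : ℕ) (ρ : ℕ) (o1 oa : Ω) (h1 : s o1 = 1)
    (ha1 : (s oa).lamp = 1) (ha2 : (s oa).pos = 0)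
    (hE : ∀ r : V6, (∀ i, |r i| ≤ 5 * ((m + 1 : ℕ) : ℤ)) → (∃ i, (ρ : ℤ) < |r i|) → r ∈ E)
    (hb1 : KK z / (((m + 1 : ℕ) : ℝ) + 1) ^ 3 ≤ 1 / 2)
    (hb2 : (2 * (ρ : ℝ) + 1) ^ 6 * (KK z / (((m + 1 : ℕ) : ℝ) + 1) ^ 3) ≤ 1 / 2) :
    1 / (4 * (Fintype.card Ω : ℝ)) ≤
    (badCount s (W 1) (m + 1) : ℝ) / (((Fintype.card Ω : ℝ) ^ (m + 1)) ^ 3) := by
  have := bad_lower h m ρ o1 oa h1 ha1 ha2 hE hb1 hb2
  unfold badCount
  convert this

end H790W
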