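import Mathlib
import Pool.Agent.H790W.Six

/-!
The concrete generating set of `GG E ≤ Gam E`, `E ⊆ ℤ^6`: one lamp generator `a^{±1}` and the
64 translations by the vectors of `{±1}^6`.
-/

namespace H790W

open Finset

/-- index set of the generating set -/
abbrev OmS := Bool ⊕ (Fin 6 → Bool)

/-- lamp generator -/
noncomputable def aE (E : Set V6) : Gam E := ⟨1, 0, 0⟩

/-- translation -/
noncomputable def tE (E : Set V6) (v : V6) : Gam E := ⟨0, 0, v⟩

/-- the generators -/
noncomputable def sS (E : Set V6) : OmS → Gam E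
  | .inl true => aE E
  | .inl false => (aE E)⁻¹
  | .inr q => tE E (dir q)

lemma dir_injective : Function.Injective dir := by
  intro q q' h
  funext i
  have := congrFun h i
  unfold dir at this
  cases hq : q i <;> cases hq' : q' i <;> simp_all

lemma dir_ne_zero (q : Fin 6 → Bool) : dir q ≠ 0 := by
  intro h
  have := congrFun h 0
  unfold dir at this
  cases hq : q 0 <;> simp_all

lemma dir_neg (q : Fin 6 → Bool) : dir (fun i => !(q i)) = - dir q := by
  funext i
  unfold dir
  cases hq : q i <;> simp_all

lemma aE_inv_lamp (E : Set V6) : ((aE E)⁻¹).lamp = -1 := by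
  rw [Gam.inv_lamp]; simp [aE, T_zero]

lemma aE_inv_pos (E : Set V6) : ((aE E)⁻¹).pos = 0 := by
  rw [Gam.inv_pos]; simp [aE]

lemma tE_inv (E : Set V6) (v : V6) : (tE E v)⁻¹ = tE E (-v) := by
  ext1
  · rw [Gam.inv_lamp]; simp [tE]
  · rw [Gam.inv_cen]; simp [tE, res_zero]
  · rw [Gam.inv_pos]; simp [tE]

lemma one_ne_zero' : (1 : AddMonoidAlgebra ℤ V6) ≠ 0 := by
  intro h
  have := congrArg (fun v => v.coeff 0) h
  simp at this

lemma one_ne_neg_one : (1 : AddMonoidAlgebra ℤ V6) ≠ -1 := by
  intro h
  have := congrArg (fun v => v.coeff 0) h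
  simp [AddMonoidAlgebra.coeff_neg] at this

lemma sS_ne_one (E : Set V6) (o : OmS) : sS E o ≠ 1 := by
  intro h
  rcases o with b | q
  · cases b
    · have := congrArg Gam.lamp h
      simp only [sS, aE_inv_lamp, Gam.one_lamp] at this
      exact one_ne_zero' (neg_eq_zero.1 this)
    · have := congrArg Gam.lamp h
      exact one_ne_zero' this
  · have := congrArg Gam.pos h
    exact dir_ne_zero q this

lemma sS_injective (E : Set V6) : Function.Injective (sS E) := by
  intro o o' h
  rcases o with b | q <;> rcases o' with b' | q'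
  · cases b <;> cases b'
    · rfl
    · have := congrArg Gam.lamp h
      simp only [sS, aE_inv_lamp] at this
      exact absurd this.symm one_ne_neg_one
    · have := congrArg Gam.lamp h
      simp only [sS, aE_inv_lamp] at this
      exact absurd this one_ne_neg_one
    · rfl
  · have := congrArg Gam.pos h
    cases b
    · simp only [sS, aE_inv_pos] at this
      exact absurd this.symm (dir_ne_zero q')
    · exact absurd this.symm (dir_ne_zero q')
  · have := congrArg Gam.pos h
    cases b'
    · simp only [sS, aE_inv_pos] at this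
      exact absurd this (dir_ne_zero q)
    · exact absurd this (dir_ne_zero q)
  · have := congrArg Gam.pos h
    rw [dir_injective this]

lemma sS_inv (E : Set V6) (o : OmS) : ∃ o', sS E o' = (sS E o)⁻¹ := by
  rcases o with b | q
  · cases b
    · exact ⟨.inl true, by simp [sS]⟩
    · exact ⟨.inl false, rfl⟩
  · exact ⟨.inr fun i => !(q i), by simp only [sS]; rw [tE_inv, dir_neg]⟩

/-- the group -/
abbrev GG (E : Set V6) := ↥(Subgroup.closure (Set.range (sS E)))

/-- generators in the group `GG E` -/
noncomputable def sG (E : Set V6) (o : OmS) : GG E :=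
  ⟨sS E o, Subgroup.subset_closure ⟨o, rfl⟩⟩

lemma sG_injective (E : Set V6) : Function.Injective (sG E) := by
  intro o o' h
  exact sS_injective E (congrArg Subtype.val h)

open Classical in
/-- the symmetric generating set, 66 elements -/
noncomputable def SG (E : Set V6) : Finset (GG E) := univ.image (sG E)

open Classical in
lemma SG_symm (E : Set V6) : ∀ s ∈ SG E, s⁻¹ ∈ SG E := by
  intro s hs
  rw [SG, Finset.mem_image] at hs ⊢
  obtain ⟨o, _, rfl⟩ := hs
  obtain ⟨o', ho'⟩ := sS_inv E o
  exact ⟨o', Finset.mem_univ _, Subtype.ext ho'⟩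

open Classical in
lemma SG_closure (E : Set V6) : Subgroup.closure (SG E : Set (GG E)) = ⊤ := by
  have h : (SG E : Set (GG E)) = ((↑) : GG E → Gam E) ⁻¹' (Set.range (sS E)) := by
    ext s
    rw [SG, Finset.coe_image, Finset.coe_univ, Set.image_univ]
    constructor
    · rintro ⟨o, rfl⟩
      exact ⟨o, rfl⟩
    · rintro ⟨o, ho⟩
      exact ⟨o, Subtype.ext ho⟩
  rw [h]
  exact Subgroup.closure_closure_coe_preimage

open Classical in
lemma SG_nonempty (E : Set V6) : (SG E).Nonempty := by
  rw [SG]; exact (Finset.univ_nonempty).image _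

open Classical in
lemma SG_card (E : Set V6) : (SG E).card = 66 := by
  rw [SG, Finset.card_image_of_injective _ (sG_injective E), Finset.card_univ]
  simp

open Classical in
lemma one_notMem_SG (E : Set V6) : (1 : GG E) ∉ SG E := by
  intro h
  rw [SG, Finset.mem_image] at h
  obtain ⟨o, _, ho⟩ := h
  exact sS_ne_one E o (congrArg Subtype.val ho)

lemma coe_lift {Γ : Type*} [Group Γ] (H : Subgroup Γ) {d : ℕ} (g : Fin d → H)
    (w : FreeGroup (Fin d)) :
    ((FreeGroup.lift g w : H) : Γ) = FreeGroup.lift (fun i => (g i : Γ)) w := by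
  have : H.subtype.comp (FreeGroup.lift g) = FreeGroup.lift (fun i => (g i : Γ)) := by
    ext i; simp
  exact DFunLike.congr_fun this w

lemma coe_rprod {Γ : Type*} [Group Γ] (H : Subgroup Γ) {Ω : Type*} (s : Ω → H) {n : ℕ}
    (ω : Fin n → Ω) : ((rprod s ω : H) : Γ) = rprod (fun o => (s o : Γ)) ω := by
  induction n with
  | zero => rw [rprod_zero, rprod_zero]; rfl
  | succ n ih =>
    rw [← Fin.cons_self_tail ω, rprod_cons, rprod_cons, Subgroup.coe_mul, ih]

lemma lift_ne_one_iff {Γ : Type*} [Group Γ] (H : Subgroup Γ) {Ω : Type*} (s : Ω → H) {d n : ℕ}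
    (ω : Fin d → Fin n → Ω) (w : FreeGroup (Fin d)) :
    FreeGroup.lift (fun i => rprod s (ω i)) w ≠ 1 ↔
      FreeGroup.lift (fun i => rprod (fun o => (s o : Γ)) (ω i)) w ≠ 1 := by
  rw [Ne, Ne, not_iff_not, ← OneMemClass.coe_eq_one, coe_lift]
  simp only [coe_rprod]

lemma badCount_coe {Γ : Type*} [Group Γ] (H : Subgroup Γ) {Ω : Type*} [Fintype Ω] (s : Ω → H)
    (s' : Ω → Γ) (hs : ∀ o, (s o : Γ) = s' o) {d : ℕ} (w : FreeGroup (Fin d)) (n : ℕ) :
    badCount s w n = badCount s' w n := by
  classical
  have hs' : s' = fun o => (s o : Γ) := by funext o; rw [hs]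
  subst hs'
  unfold badCount
  apply congrArg Finset.card
  apply @Finset.filter_congr _ _ _ (_) (_)
  intro ω _
  exact lift_ne_one_iff H s ω w

open scoped ENNReal

lemma uniformOfFinset_image {Λ G : Type*} [Fintype Λ] [Nonempty Λ] [DecidableEq G] (f : Λ → G)
    (hf : Function.Injective f) (hne : ((univ : Finset Λ).image f).Nonempty) :
    PMF.uniformOfFinset (univ.image f) hne = (PMF.uniformOfFintype Λ).map f := by
  classical
  ext g
  rw [PMF.uniformOfFinset_apply, PMF.map_apply, tsum_fintype,
    Finset.card_image_of_injective _ hf, Finset.card_univ]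
  simp only [PMF.uniformOfFintype_apply]
  by_cases hg : g ∈ (univ : Finset Λ).image f
  · rw [if_pos hg]
    rw [Finset.mem_image] at hg
    obtain ⟨o, _, rfl⟩ := hg
    rw [Finset.sum_eq_single o]
    · simp
    · intro b _ hb
      rw [if_neg]
      intro h
      exact hb (hf h).symm
    · intro h; exact absurd (Finset.mem_univ _) h
  · rw [if_neg hg]
    symm
    apply Finset.sum_eq_zero
    intro b _
    rw [if_neg]
    intro h
    apply hg
    rw [h]
    exact Finset.mem_image_of_mem _ (Finset.mem_univ _)

lemma uniform_prod_bind {Λ₁ Λ₂ G : Type*} [Fintype Λ₁] [Nonempty Λ₁] [Fintype Λ₂] [Nonempty Λ₂]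
    (f : Λ₁ × Λ₂ → G) :
    (PMF.uniformOfFintype (Λ₁ × Λ₂)).map f =
      (PMF.uniformOfFintype Λ₁).bind fun b => (PMF.uniformOfFintype Λ₂).map fun o => f (b, o) := by
  classical
  ext g
  rw [PMF.map_apply, PMF.bind_apply, tsum_fintype, tsum_fintype, Fintype.sum_prod_type]
  apply Finset.sum_congr rfl
  intro b _
  rw [PMF.map_apply, tsum_fintype, Finset.mul_sum]
  apply Finset.sum_congr rfl
  intro o _
  simp only [PMF.uniformOfFintype_apply, Fintype.card_prod, mul_ite, mul_zero]
  congr 1
  push_cast
  rw [ENNReal.mul_inv (Or.inr (ENNReal.natCast_ne_top _)) (Or.inl (ENNReal.natCast_ne_top _))]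

/-! ### The uniform walk on `S ∪ {1}` -/

/-- steps of the uniform walk on `S ∪ {1}` -/
noncomputable def stepA (E : Set V6) : Option OmS → Gam E := fun o => o.elim 1 (sS E)

lemma sS_lamp0 (E : Set V6) (o : OmS) : (sS E o).lamp.coeff.support ⊆ {0} := by
  rcases o with b | q
  · cases b
    · simp only [sS, aE_inv_lamp]
      intro p hp
      rw [Finsupp.mem_support_iff, AddMonoidAlgebra.coeff_neg, Finsupp.neg_apply] at hp
      rw [Finset.mem_singleton]
      by_contra hne
      apply hp
      rw [AddMonoidAlgebra.one_def, AddMonoidAlgebra.coeff_single, Finsupp.single_apply,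
        if_neg (Ne.symm hne), neg_zero]
    · intro p hp
      rw [Finsupp.mem_support_iff] at hp
      rw [Finset.mem_singleton]
      by_contra hne
      apply hp
      show (1 : AddMonoidAlgebra ℤ V6).coeff p = 0
      rw [AddMonoidAlgebra.one_def, AddMonoidAlgebra.coeff_single, Finsupp.single_apply,
        if_neg (Ne.symm hne)]
  · simp [sS, tE]

lemma sS_posb (E : Set V6) (o : OmS) (i : Fin 6) : |(sS E o).pos i| ≤ 1 := by
  rcases o with b | q
  · cases b
    · simp only [sS, aE_inv_pos]; simp
    · simp [sS, aE]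
  · simp only [sS, tE, dir]
    cases q i <;> simp

lemma sS_rho (E : Set V6) : ∑ o, T ((sS E o).pos) = 2 + ∑ q : Fin 6 → Bool, T (dir q) := by
  rw [Fintype.sum_sum_type]
  congr 1
  rw [Fintype.sum_bool]
  simp only [sS, aE_inv_pos]
  simp only [aE, T_zero]
  norm_num

lemma stepA_steps (E : Set V6) : Steps6 (stepA E) 3 where
  lamp0 := by
    intro o
    cases o with
    | none => simp [stepA]
    | some o => exact sS_lamp0 E o
  posb := by
    intro o i
    cases o with
    | none => simp [stepA]
    | some o => exact sS_posb E o i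
  rho := by
    rw [Fintype.sum_option]
    simp only [stepA, Option.elim_none, Option.elim_some, Gam.one_pos, T_zero]
    rw [sS_rho]
    push_cast
    ring
  card := by simp

/-- steps in the subgroup -/
noncomputable def stepAG (E : Set V6) : Option OmS → GG E := fun o => o.elim 1 (sG E)

lemma stepAG_coe (E : Set V6) (o : Option OmS) : ((stepAG E o : GG E) : Gam E) = stepA E o := by
  cases o <;> rfl

lemma stepAG_injective (E : Set V6) : Function.Injective (stepAG E) := by
  intro o o' h
  cases o with
  | none =>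
    cases o' with
    | none => rfl
    | some o' => exact absurd (congrArg Subtype.val h).symm (sS_ne_one E o')
  | some o =>
    cases o' with
    | none => exact absurd (congrArg Subtype.val h) (sS_ne_one E o)
    | some o' => rw [sG_injective E h]

open Classical in
/-- The uniform law on `S ∪ {1}`. -/
noncomputable def unifLaw {G : Type*} [Group G] (S : Finset G) : PMF G :=
  PMF.uniformOfFinset (insert 1 S) (Finset.insert_nonempty 1 S)

lemma uniformA (E : Set V6) :
    unifLaw (SG E) = (PMF.uniformOfFintype (Option OmS)).map (stepAG E) := by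
  classical
  have h2 : ∀ (A B : Finset (GG E)) (hA : A.Nonempty) (hB : B.Nonempty), A = B →
      PMF.uniformOfFinset A hA = PMF.uniformOfFinset B hB := by
    rintro A _ hA hB rfl; rfl
  have hne : ((univ : Finset (Option OmS)).image (stepAG E)).Nonempty :=
    Finset.univ_nonempty.image _
  refine (h2 _ _ _ hne ?_).trans
    (uniformOfFinset_image (stepAG E) (stepAG_injective E) hne)
  ext g
  constructor
  · intro hg
    rcases (@Finset.mem_insert _ (_) _ _ _).1 hg with rfl | hg'
    · exact Finset.mem_image.2 ⟨none, Finset.mem_univ _, rfl⟩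
    · obtain ⟨o, _, rfl⟩ := Finset.mem_image.1 hg'
      exact Finset.mem_image.2 ⟨some o, Finset.mem_univ _, rfl⟩
  · intro hg
    obtain ⟨o, _, rfl⟩ := Finset.mem_image.1 hg
    cases o with
    | none => exact (@Finset.mem_insert _ (_) _ _ _).2 (Or.inl rfl)
    | some o =>
      have h3 : stepAG E (some o) ∈ SG E := Finset.mem_image.2 ⟨o, Finset.mem_univ _, rfl⟩
      exact (@Finset.mem_insert _ (_) _ _ _).2 (Or.inr h3)

/-! ### The lazy walk -/

/-- The lazy step law: stay with probability `1/2`, otherwise uniform on `S`. -/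
noncomputable def lazyLaw {G : Type*} [Group G] (S : Finset G) (hS : S.Nonempty) : PMF G :=
  (PMF.uniformOfFintype Bool).bind fun b => if b then PMF.uniformOfFinset S hS else PMF.pure 1

/-- steps of the lazy walk -/
noncomputable def stepC (E : Set V6) : Bool × OmS → Gam E := fun t => if t.1 then sS E t.2 else 1

/-- steps of the lazy walk in the subgroup -/
noncomputable def stepCG (E : Set V6) : Bool × OmS → GG E := fun t => if t.1 then sG E t.2 else 1

lemma stepCG_coe (E : Set V6) (t : Bool × OmS) : ((stepCG E t : GG E) : Gam E) = stepC E t := by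
  rcases t with ⟨b, o⟩
  cases b <;> rfl

lemma stepC_steps (E : Set V6) : Steps6 (stepC E) 68 where
  lamp0 := by
    rintro ⟨b, o⟩
    cases b
    · simp [stepC]
    · exact sS_lamp0 E o
  posb := by
    rintro ⟨b, o⟩ i
    cases b
    · simp [stepC]
    · exact sS_posb E o i
  rho := by
    rw [Fintype.sum_prod_type, Fintype.sum_bool]
    have h1 : ∑ y : OmS, T ((stepC E (true, y)).pos) = ∑ o, T ((sS E o).pos) := rfl
    have h2 : ∑ y : OmS, T ((stepC E (false, y)).pos) = 66 := by
      have : ∀ y : OmS, T ((stepC E (false, y)).pos) = 1 := by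
        intro y; simp [stepC, T_zero]
      simp only [this, Finset.sum_const, Finset.card_univ, nsmul_eq_mul, mul_one]
      simp
    rw [h1, h2, sS_rho]
    push_cast
    ring
  card := by simp

lemma lazyLaw_eq (E : Set V6) :
    lazyLaw (SG E) (SG_nonempty E) = (PMF.uniformOfFintype (Bool × OmS)).map (stepCG E) := by
  classical
  rw [uniform_prod_bind]
  unfold lazyLaw
  congr 1
  funext b
  cases b
  · simp only [stepCG, Bool.false_eq_true, if_false]
    exact (PMF.map_const _ _).symm
  · simp only [stepCG, if_true]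
    exact uniformOfFinset_image (sG E) (sG_injective E) (SG_nonempty E)

end H790W
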