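import Mathlib
import Pool.Agent.H790W.Grp
import Pool.Agent.H790W.Prob
import Pool.Agent.H790W.Word
import Pool.Agent.H790W.Anti

/-!
Drifted walks on `Gam E`, `E = {|r 0| < |r 1|} ⊆ ℤ^2`.
-/

namespace H790W

open Finset

/-- `ℤ^2` -/
abbrev V2 := Fin 2 → ℤ

/-- the active lags: those in the vertical double cone -/
def EV : Set V2 := {r | |r 0| < |r 1|}

/-- number of marked steps -/
def nb {Ω : Type*} (bad : Ω → ℕ) {n : ℕ} (ω : Fin n → Ω) : ℤ := ∑ k, (bad (ω k) : ℤ)

lemma nb_nonneg {Ω : Type*} (bad : Ω → ℕ) {n : ℕ} (ω : Fin n → Ω) : 0 ≤ nb bad ω :=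
  Finset.sum_nonneg fun _ _ => Int.natCast_nonneg _

/-- Step data for a walk drifting in direction `i`: `bad` marks the steps that do not move by
the unit vector `e_i`. -/
structure StepsD {E : Set V2} {Ω : Type*} (s : Ω → Gam E) (i j : Fin 2) (bad : Ω → ℕ)
    (c : Ω → ℤ) : Prop where
  lampc : ∀ o, (s o).lamp = ((c o : ℤ) : AddMonoidAlgebra ℤ V2)
  badle : ∀ o, bad o ≤ 1
  posi1 : ∀ o, 1 - 2 * (bad o : ℤ) ≤ (s o).pos i
  posi2 : ∀ o, (s o).pos i ≤ 1
  posj : ∀ o, |(s o).pos j| ≤ (bad o : ℤ)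

variable {E : Set V2} {Ω : Type*} {s : Ω → Gam E} {i j : Fin 2} {bad : Ω → ℕ} {c : Ω → ℤ}

lemma nb_le (h : StepsD s i j bad c) {n : ℕ} (ω : Fin n → Ω) : nb bad ω ≤ n := by
  unfold nb
  refine le_trans (Finset.sum_le_sum (g := fun _ => (1 : ℤ)) fun k _ => ?_) ?_
  · exact_mod_cast h.badle (ω k)
  · simp

lemma d_pos1 (h : StepsD s i j bad c) {n : ℕ} (ω : Fin n → Ω) :
    (n : ℤ) - 2 * nb bad ω ≤ (rprod s ω).pos i := by
  rw [rprod_pos, Finset.sum_apply]
  unfold nb
  have : ∑ k, (1 - 2 * (bad (ω k) : ℤ)) ≤ ∑ k, (s (ω k)).pos i :=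
    Finset.sum_le_sum fun k _ => h.posi1 (ω k)
  rw [Finset.sum_sub_distrib, ← Finset.mul_sum] at this
  simpa using this

lemma d_pos2 (h : StepsD s i j bad c) {n : ℕ} (ω : Fin n → Ω) :
    (rprod s ω).pos i ≤ n := by
  rw [rprod_pos, Finset.sum_apply]
  have : ∑ k, (s (ω k)).pos i ≤ ∑ _k : Fin n, (1 : ℤ) :=
    Finset.sum_le_sum fun k _ => h.posi2 (ω k)
  simpa using this

lemma d_pos3 (h : StepsD s i j bad c) {n : ℕ} (ω : Fin n → Ω) :
    |(rprod s ω).pos j| ≤ nb bad ω := by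
  rw [rprod_pos, Finset.sum_apply]
  exact le_trans (Finset.abs_sum_le_sum_abs _ _) (Finset.sum_le_sum fun k _ => h.posj (ω k))

lemma intCast_support (z : ℤ) : ((z : ℤ) : AddMonoidAlgebra ℤ V2).coeff.support ⊆ {0} := by
  intro p hp
  rw [Finset.mem_singleton]
  by_contra hne
  rw [Finsupp.mem_support_iff] at hp
  apply hp
  have : ((z : ℤ) : AddMonoidAlgebra ℤ V2) = AddMonoidAlgebra.single 0 z := by
    have h1 : (z : AddMonoidAlgebra ℤ V2) = z • (1 : AddMonoidAlgebra ℤ V2) := by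
      rw [zsmul_eq_mul, mul_one]
    rw [h1, AddMonoidAlgebra.one_def, AddMonoidAlgebra.smul_single]
    simp
  rw [this, AddMonoidAlgebra.coeff_single, Finsupp.single_apply, if_neg (Ne.symm hne)]

lemma d_lamp (h : StepsD s i j bad c) {n : ℕ} (ω : Fin n → Ω) :
    ∀ p ∈ (rprod s ω).lamp.coeff.support, - nb bad ω ≤ p i ∧ p i ≤ n ∧ |p j| ≤ nb bad ω := by
  induction n with
  | zero => rw [rprod_zero]; simp
  | succ n ih =>
    intro p hp
    have hnb : nb bad ω = (bad (ω 0) : ℤ) + nb bad (Fin.tail ω) := by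
      unfold nb; rw [Fin.sum_univ_succ]; rfl
    have hb0 : (0 : ℤ) ≤ (bad (ω 0) : ℤ) := Int.natCast_nonneg _
    have hb1 : (bad (ω 0) : ℤ) ≤ 1 := by exact_mod_cast h.badle (ω 0)
    have hn0 := nb_nonneg bad (Fin.tail ω)
    rw [← Fin.cons_self_tail ω, rprod_cons, Gam.mul_lamp, AddMonoidAlgebra.coeff_add] at hp
    have hp' := Finsupp.support_add hp
    rw [Finset.mem_union] at hp'
    rw [hnb]
    push_cast
    rcases hp' with hp' | hp'
    · rw [h.lampc] at hp'
      have := intCast_support _ hp'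
      rw [Finset.mem_singleton] at this
      rw [this]
      simp only [Pi.zero_apply, abs_zero]
      refine ⟨by linarith, by positivity, by linarith⟩
    · have h1 := coeff_T_mul_ne (Finsupp.mem_support_iff.1 hp')
      obtain ⟨h2, h3, h4⟩ := ih _ _ h1
      have h5 := h.posi1 (ω 0)
      have h6 := h.posi2 (ω 0)
      have h7 := abs_le.1 (h.posj (ω 0))
      rw [Pi.sub_apply] at h2 h3 h4
      have h8 := abs_le.1 h4
      refine ⟨by linarith, by linarith, ?_⟩
      rw [abs_le]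
      constructor <;> linarith [h7.1, h7.2, h8.1, h8.2]

lemma d_cl (h : StepsD s i j bad c) {n : ℕ} (ω ω' : Fin n → Ω) :
    ∀ p ∈ (cl (rprod s ω) (rprod s ω')).coeff.support,
      - (nb bad ω + nb bad ω') ≤ p i ∧ p i ≤ 2 * n ∧ |p j| ≤ nb bad ω + nb bad ω' := by
  intro p hp
  have hp' := cl_support _ _ hp
  simp only [mem_union, mem_image] at hp'
  have n1 := nb_nonneg bad ω
  have n2 := nb_nonneg bad ω'
  have m1 := nb_le h ω
  have m2 := nb_le h ω'
  have a1 := d_pos1 h ω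
  have a2 := d_pos2 h ω
  have a3 := abs_le.1 (d_pos3 h ω)
  have b1 := d_pos1 h ω'
  have b2 := d_pos2 h ω'
  have b3 := abs_le.1 (d_pos3 h ω')
  have hn : (0 : ℤ) ≤ n := Int.natCast_nonneg n
  rcases hp' with ((h1 | ⟨q, h1, rfl⟩) | ⟨q, h1, rfl⟩) | h1
  · obtain ⟨c1, c2, c3⟩ := d_lamp h ω p h1
    exact ⟨by linarith, by linarith, by linarith⟩
  · obtain ⟨c1, c2, c3⟩ := d_lamp h ω' q h1
    have c3' := abs_le.1 c3
    simp only [Pi.add_apply]
    refine ⟨by linarith, by linarith, ?_⟩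
    rw [abs_le]
    constructor <;> linarith [c3'.1, c3'.2, a3.1, a3.2]
  · obtain ⟨c1, c2, c3⟩ := d_lamp h ω q h1
    have c3' := abs_le.1 c3
    simp only [Pi.add_apply]
    refine ⟨by linarith, by linarith, ?_⟩
    rw [abs_le]
    constructor <;> linarith [c3'.1, c3'.2, b3.1, b3.2]
  · obtain ⟨c1, c2, c3⟩ := d_lamp h ω' p h1
    exact ⟨by linarith, by linarith, by linarith⟩

/-- lags on the good event -/
lemma d_lag (h : StepsD s i j bad c) {n : ℕ} (ω ω' ω'' : Fin n → Ω)
    (hg : 9 * (nb bad ω + nb bad ω' + nb bad ω'') < n) {r : V2}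
    (hr : (rev (cl (rprod s ω) (rprod s ω')) * cl (rprod s ω) (rprod s ω')).coeff
        (r + 3 • (rprod s ω'').pos) ≠ 0 ∨
      (rev (cl (rprod s ω) (rprod s ω')) * cl (rprod s ω) (rprod s ω')).coeff
        (r - 3 • (rprod s ω'').pos) ≠ 0) : |r j| < |r i| := by
  have n1 := nb_nonneg bad ω
  have n2 := nb_nonneg bad ω'
  have n3 := nb_nonneg bad ω''
  have z1 := d_pos1 h ω''
  have z3 := abs_le.1 (d_pos3 h ω'')
  rcases hr with hr | hr
  · obtain ⟨p, hp, q, hq, hpq⟩ := rev_mul_self_coeff_ne hr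
    obtain ⟨p1, p2, p3⟩ := d_cl h ω ω' p hp
    obtain ⟨q1, q2, q3⟩ := d_cl h ω ω' q hq
    have p3' := abs_le.1 p3
    have q3' := abs_le.1 q3
    have ei : r i = q i - p i - 3 * (rprod s ω'').pos i := by
      have := congrFun hpq i
      simp only [Pi.add_apply, Pi.sub_apply, Pi.smul_apply] at this
      rw [nsmul_eq_mul] at this
      push_cast at this
      linarith
    have ej : r j = q j - p j - 3 * (rprod s ω'').pos j := by
      have := congrFun hpq j
      simp only [Pi.add_apply, Pi.sub_apply, Pi.smul_apply] at this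
      rw [nsmul_eq_mul] at this
      push_cast at this
      linarith
    have hj : |r j| ≤ 3 * nb bad ω'' + 2 * (nb bad ω + nb bad ω') := by
      rw [ej, abs_le]
      constructor <;> linarith [p3'.1, p3'.2, q3'.1, q3'.2, z3.1, z3.2]
    have hi : (n : ℤ) - 6 * nb bad ω'' - (nb bad ω + nb bad ω') ≤ |r i| := by
      refine le_trans ?_ (neg_le_abs _)
      rw [ei]; linarith
    linarith
  · obtain ⟨p, hp, q, hq, hpq⟩ := rev_mul_self_coeff_ne hr
    obtain ⟨p1, p2, p3⟩ := d_cl h ω ω' p hp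
    obtain ⟨q1, q2, q3⟩ := d_cl h ω ω' q hq
    have p3' := abs_le.1 p3
    have q3' := abs_le.1 q3
    have ei : r i = q i - p i + 3 * (rprod s ω'').pos i := by
      have := congrFun hpq i
      simp only [Pi.sub_apply, Pi.smul_apply] at this
      rw [nsmul_eq_mul] at this
      push_cast at this
      linarith
    have ej : r j = q j - p j + 3 * (rprod s ω'').pos j := by
      have := congrFun hpq j
      simp only [Pi.sub_apply, Pi.smul_apply] at this
      rw [nsmul_eq_mul] at this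
      push_cast at this
      linarith
    have hj : |r j| ≤ 3 * nb bad ω'' + 2 * (nb bad ω + nb bad ω') := by
      rw [ej, abs_le]
      constructor <;> linarith [p3'.1, p3'.2, q3'.1, q3'.2, z3.1, z3.2]
    have hi : (n : ℤ) - 6 * nb bad ω'' - (nb bad ω + nb bad ω') ≤ |r i| := by
      refine le_trans ?_ (le_abs_self _)
      rw [ei]; linarith
    linarith

/-- With horizontal drift the word is satisfied on the good event. -/
lemma sat_horizontal {s : Ω → Gam EV} (h : StepsD s 0 1 bad c) {n : ℕ} (ω : Fin 3 → Fin n → Ω)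
    (hg : 9 * (nb bad (ω 0) + nb bad (ω 1) + nb bad (ω 2)) < n) :
    FreeGroup.lift (fun i => rprod s (ω i)) (W 3) = 1 := by
  rw [lift_W_eq_one_iff]
  intro r hr
  have hr' : |r 0| < |r 1| := hr
  by_contra hne
  have := d_lag h (ω 0) (ω 1) (ω 2) hg (r := r) (by
    by_contra hcon
    push Not at hcon
    exact hne (hcon.1.trans hcon.2.symm))
  linarith

/-- With vertical drift the word is violated on the good event unless the lamp part of the
commutator vanishes. -/
lemma viol_vertical {s : Ω → Gam EV} (h : StepsD s 1 0 bad c) {n : ℕ} (ω : Fin 3 → Fin n → Ω)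
    (hg : 9 * (nb bad (ω 0) + nb bad (ω 1) + nb bad (ω 2)) < n)
    (hu : cl (rprod s (ω 0)) (rprod s (ω 1)) ≠ 0) :
    FreeGroup.lift (fun i => rprod s (ω i)) (W 3) ≠ 1 := by
  rw [Ne, lift_W_eq_one_iff]
  intro hall
  set Z := 3 • (rprod s (ω 2)).pos with hZ
  set A := rev (cl (rprod s (ω 0)) (rprod s (ω 1))) * cl (rprod s (ω 0)) (rprod s (ω 1)) with hA
  have hA0 : A.coeff 0 ≠ 0 := rev_mul_self_coeff_zero_ne hu
  have n1 := nb_nonneg bad (ω 0)
  have n2 := nb_nonneg bad (ω 1)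
  have n3 := nb_nonneg bad (ω 2)
  have z1 := d_pos1 h (ω 2)
  have hZ1 : 0 < Z 1 := by
    rw [hZ]
    simp only [Pi.smul_apply]
    rw [nsmul_eq_mul]
    push_cast
    linarith
  obtain ⟨α, hα, hmax⟩ := Finset.exists_max_image A.coeff.support (fun p : V2 => p 1)
    ⟨0, Finsupp.mem_support_iff.2 hA0⟩
  have hr2 : A.coeff (α + Z - Z) ≠ 0 := by
    rw [add_sub_cancel_right]
    exact Finsupp.mem_support_iff.1 hα
  have hr1 : A.coeff (α + Z + Z) = 0 := by
    by_contra hcon
    have := hmax _ (Finsupp.mem_support_iff.2 hcon)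
    simp only [Pi.add_apply] at this
    linarith
  have hE : α + Z ∈ EV := d_lag h (ω 0) (ω 1) (ω 2) hg (Or.inr hr2)
  have := hall _ hE
  rw [hr1] at this
  exact hr2 this.symm

/-! ### Linear functionals -/

/-- `u ↦ ∑ u(p) h(p)` -/
noncomputable def phi (h : V2 → ℤ) : AddMonoidAlgebra ℤ V2 →+ ℤ :=
  (Finsupp.liftAddHom (fun p => AddMonoidHom.mulRight (h p))).comp
    AddMonoidAlgebra.coeffAddEquiv.toAddMonoidHom

lemma phi_single (h : V2 → ℤ) (p : V2) (a : ℤ) :
    phi h (AddMonoidAlgebra.single p a) = a * h p := by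
  simp [phi]

lemma phi_T_mul (h : V2 → ℤ) (v : V2) (u : AddMonoidAlgebra ℤ V2) :
    phi h (T v * u) = phi (fun p => h (v + p)) u := by
  have : (phi h).comp (AddMonoidHom.mulLeft (T v)) = phi (fun p => h (v + p)) := by
    apply AddMonoidAlgebra.addMonoidHom_ext
    intro m r
    simp only [AddMonoidHom.comp_apply, AddMonoidHom.coe_mulLeft]
    rw [T, AddMonoidAlgebra.single_mul_single, phi_single, phi_single, one_mul]
  exact DFunLike.congr_fun this u

/-- total lamp -/
noncomputable def tot : AddMonoidAlgebra ℤ V2 →+ ℤ := phi fun _ => 1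

lemma tot_T_mul (v : V2) (u : AddMonoidAlgebra ℤ V2) : tot (T v * u) = tot u := phi_T_mul _ v u

lemma phi_coord (i : Fin 2) (v : V2) (u : AddMonoidAlgebra ℤ V2) :
    phi (fun p => p i) (T v * u) = phi (fun p => p i) u + v i * tot u := by
  rw [phi_T_mul]
  have : phi (fun p : V2 => (v + p) i) = phi (fun p => p i) + (v i) • tot := by
    apply AddMonoidAlgebra.addMonoidHom_ext
    intro m r
    rw [phi_single, AddMonoidHom.add_apply, AddMonoidHom.smul_apply, phi_single, tot, phi_single]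
    simp only [Pi.add_apply, smul_eq_mul]
    ring
  rw [this]
  simp

lemma phi_cl (i : Fin 2) (x y : Gam E) :
    phi (fun p => p i) (cl x y) = x.pos i * tot y.lamp - y.pos i * tot x.lamp := by
  unfold cl
  rw [map_sub, map_sub, map_add, phi_coord, phi_coord]
  ring

lemma tot_intCast (z : ℤ) : tot ((z : ℤ) : AddMonoidAlgebra ℤ V2) = z := by
  have h1 : (z : AddMonoidAlgebra ℤ V2) = z • (1 : AddMonoidAlgebra ℤ V2) := by
    rw [zsmul_eq_mul, mul_one]
  rw [h1, map_zsmul, tot, AddMonoidAlgebra.one_def, phi_single]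
  simp

lemma tot_rprod (h : StepsD s i j bad c) {n : ℕ} (ω : Fin n → Ω) :
    tot (rprod s ω).lamp = ∑ k, c (ω k) := by
  induction n with
  | zero => rw [rprod_zero]; simp
  | succ n ih =>
    rw [← Fin.cons_self_tail ω, rprod_cons, Gam.mul_lamp, map_add, tot_T_mul, ih, h.lampc,
      tot_intCast, Fin.sum_univ_succ]
    simp

end H790W
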