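import Mathlib
import Pool.Agent.H790W.Two
import Pool.Agent.H790W.Steps

/-!
Counting estimates for the drifted walks.
-/

namespace H790W

open Finset

variable {E : Set V2} {Ω : Type*} [Fintype Ω] {i j : Fin 2} {c : Ω → ℤ}

/-- total number of marked steps of three walks -/
def nb3 (bad : Ω → ℕ) {n : ℕ} (ω : Fin 3 → Fin n → Ω) : ℕ := ∑ a, ∑ k, bad (ω a k)

omit [Fintype Ω] in
lemma nb3_eq (bad : Ω → ℕ) {n : ℕ} (ω : Fin 3 → Fin n → Ω) :
    ((nb3 bad ω : ℕ) : ℤ) = nb bad (ω 0) + nb bad (ω 1) + nb bad (ω 2) := by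
  unfold nb3 nb
  rw [Fin.sum_univ_three]
  push_cast
  rfl

open Classical in
/-- exponential Markov inequality -/
lemma markov (bad : Ω → ℕ) (n : ℕ) :
    (univ.filter fun ω : Fin 3 → Fin n → Ω => n ≤ 9 * nb3 bad ω).card * 2 ^ n ≤
      ((∑ o, 2 ^ (9 * bad o)) ^ n) ^ 3 := by
  have h1 : ((∑ o, 2 ^ (9 * bad o)) ^ n) ^ 3 = ∑ ω : Fin 3 → Fin n → Ω, 2 ^ (9 * nb3 bad ω) := by
    rw [Fintype.sum_pow, Fintype.sum_pow]
    apply Finset.sum_congr rfl
    intro ω _
    unfold nb3
    rw [Finset.mul_sum, ← Finset.prod_pow_eq_pow_sum]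
    apply Finset.prod_congr rfl
    intro a _
    rw [Finset.mul_sum, ← Finset.prod_pow_eq_pow_sum]
  rw [h1]
  calc (univ.filter fun ω : Fin 3 → Fin n → Ω => n ≤ 9 * nb3 bad ω).card * 2 ^ n
      = ∑ _ω ∈ (univ.filter fun ω : Fin 3 → Fin n → Ω => n ≤ 9 * nb3 bad ω), 2 ^ n := by
        rw [Finset.sum_const, smul_eq_mul]
    _ ≤ ∑ ω ∈ (univ.filter fun ω : Fin 3 → Fin n → Ω => n ≤ 9 * nb3 bad ω),
          2 ^ (9 * nb3 bad ω) := by
        apply Finset.sum_le_sum
        intro ω hω
        rw [Finset.mem_filter] at hω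
        exact Nat.pow_le_pow_right (by norm_num) hω.2
    _ ≤ _ := Finset.sum_le_sum_of_subset (Finset.filter_subset _ _)

/-- Horizontal drift: the violating tuples have many marked steps. -/
lemma bad_horizontal {s : Ω → Gam EV} {bad : Ω → ℕ} (h : StepsD s 0 1 bad c) (n : ℕ) :
    badCount s (W 3) n * 2 ^ n ≤ ((∑ o, 2 ^ (9 * bad o)) ^ n) ^ 3 := by
  classical
  refine le_trans (Nat.mul_le_mul_right _ ?_) (markov bad n)
  unfold badCount
  apply Finset.card_le_card
  intro ω hω
  rw [Finset.mem_filter] at hω ⊢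
  refine ⟨Finset.mem_univ _, ?_⟩
  by_contra hcon
  push Not at hcon
  apply hω.2
  apply sat_horizontal h
  rw [← nb3_eq]
  exact_mod_cast hcon

/-- value of a Boolean -/
def bz : Bool → ℕ
  | true => 1
  | false => 0

open Classical in
/-- the tuples on the good event for which the commutator has trivial lamp part -/
noncomputable def degen {Ω : Type*} [Fintype Ω] (s : Ω → Gam E) (bad : Ω → ℕ) (n : ℕ) :
    Finset (Fin 3 → Fin n → Ω) :=
  univ.filter fun ω : Fin 3 → Fin n → Ω =>
    9 * nb3 bad ω < n ∧ cl (rprod s (ω 0)) (rprod s (ω 1)) = 0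

lemma degen_card {Ω' : Type*} [Fintype Ω'] {s : Bool × Ω' → Gam E} {bad : Bool × Ω' → ℕ}
    {c : Bool × Ω' → ℤ} (h : StepsD s i j bad c) (c' : Ω' → ℤ)
    (hc : ∀ b o, c (b, o) = bz b + c' o) (hp : ∀ b o, (s (b, o)).pos = (s (false, o)).pos)
    (n : ℕ) :
    (degen s bad n).card ≤ n.choose (n / 2) *
      (Fintype.card Ω' ^ n * (Fintype.card (Bool × Ω') ^ n * Fintype.card (Bool × Ω') ^ n)) := by
  classical
  have hcardt : (univ : Finset ((Fin n → Ω') × (Fin n → Bool × Ω') × (Fin n → Bool × Ω'))).card =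
      (Fintype.card Ω' ^ n * (Fintype.card (Bool × Ω') ^ n * Fintype.card (Bool × Ω') ^ n)) := by
    rw [Finset.card_univ, Fintype.card_prod, Fintype.card_prod]
    simp only [Fintype.card_fun, Fintype.card_fin]
  rw [← hcardt]
  apply Finset.card_le_mul_card_image_of_maps_to
    (f := fun ω : Fin 3 → Fin n → Bool × Ω' => (fun k => (ω 0 k).2, ω 1, ω 2))
    (fun _ _ => Finset.mem_univ _)
  rintro ⟨o, y, z⟩ _
  -- the fibre
  by_cases hy : (rprod s y).pos i = 0
  · -- empty fibre
    have : ((degen s bad n).filter fun ω => (fun k => (ω 0 k).2, ω 1, ω 2) = (o, y, z)) = ∅ := by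
      rw [Finset.filter_eq_empty_iff]
      intro ω hω heq
      unfold degen at hω
      rw [Finset.mem_filter] at hω
      obtain ⟨_, hg, _⟩ := hω
      have h1 : ω 1 = y := (Prod.ext_iff.1 (Prod.ext_iff.1 heq).2).1
      have h2 := d_pos1 h (ω 1)
      rw [h1, hy] at h2
      have h3 : ((9 * nb3 bad ω : ℕ) : ℤ) < n := by exact_mod_cast hg
      push_cast at h3
      rw [nb3_eq, h1] at h3
      have a1 := nb_nonneg bad (ω 0)
      have a2 := nb_nonneg bad (ω 2)
      have a3 := nb_nonneg bad y
      linarith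
    rw [this]; simp
  · set t : ℤ := (∑ k, (s (false, o k)).pos i) * tot (rprod s y).lamp / (rprod s y).pos i -
      ∑ k, c' (o k) with ht
    have key : ∀ ω ∈ ((degen s bad n).filter fun ω =>
        (fun k => (ω 0 k).2, ω 1, ω 2) = (o, y, z)),
        ((univ.filter fun k => (ω 0 k).1 = true).card : ℤ) = t := by
      intro ω hω
      rw [Finset.mem_filter] at hω
      obtain ⟨hd, heq⟩ := hω
      unfold degen at hd
      rw [Finset.mem_filter] at hd
      obtain ⟨_, _, hcl⟩ := hd
      have h0 : ∀ k, (ω 0 k).2 = o k := fun k => congrFun (Prod.ext_iff.1 heq).1 k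
      have h1 : ω 1 = y := (Prod.ext_iff.1 (Prod.ext_iff.1 heq).2).1
      have e1 := phi_cl i (rprod s (ω 0)) (rprod s (ω 1))
      rw [hcl, map_zero, h1, tot_rprod h (ω 0)] at e1
      have e2 : (rprod s (ω 0)).pos i = ∑ k, (s (false, o k)).pos i := by
        rw [rprod_pos, Finset.sum_apply]
        apply Finset.sum_congr rfl
        intro k _
        rw [← h0 k, ← hp (ω 0 k).1 (ω 0 k).2]
      have e3 : ∑ k, c (ω 0 k) = ((univ.filter fun k => (ω 0 k).1 = true).card : ℤ) +
          ∑ k, c' (o k) := by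
        have : ∀ k, c (ω 0 k) = (if (ω 0 k).1 = true then (1 : ℤ) else 0) + c' (o k) := by
          intro k
          have := hc (ω 0 k).1 (ω 0 k).2
          rw [Prod.mk.eta] at this
          rw [this, h0 k]
          congr 1
          cases (ω 0 k).1 <;> simp [bz]
        simp only [this, Finset.sum_add_distrib, Finset.sum_boole]
      rw [e2, e3] at e1
      rw [ht]
      have e4 : (∑ k, (s (false, o k)).pos i) * tot (rprod s y).lamp =
          (((univ.filter fun k => (ω 0 k).1 = true).card : ℤ) + ∑ k, c' (o k)) *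
            (rprod s y).pos i := by linarith
      rw [e4, Int.mul_ediv_cancel _ hy]
      ring
    calc ((degen s bad n).filter fun ω => (fun k => (ω 0 k).2, ω 1, ω 2) = (o, y, z)).card
        ≤ (powersetCard t.toNat (univ : Finset (Fin n))).card := by
          apply Finset.card_le_card_of_injOn (fun ω => univ.filter fun k => (ω 0 k).1 = true)
          · intro ω hω
            rw [Finset.mem_coe, Finset.mem_powersetCard]
            refine ⟨Finset.subset_univ _, ?_⟩
            rw [← key ω hω]
            simp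
          · intro ω hω ω' hω' hh
            rw [Finset.mem_coe, Finset.mem_filter] at hω hω'
            have e0 := hω.2.trans hω'.2.symm
            have f0 : ∀ k, (ω 0 k).2 = (ω' 0 k).2 := fun k => congrFun (Prod.ext_iff.1 e0).1 k
            have f1 : ω 1 = ω' 1 := (Prod.ext_iff.1 (Prod.ext_iff.1 e0).2).1
            have f2 : ω 2 = ω' 2 := (Prod.ext_iff.1 (Prod.ext_iff.1 e0).2).2
            funext a
            fin_cases a
            · funext k
              apply Prod.ext
              · have : k ∈ (univ.filter fun k => (ω 0 k).1 = true) ↔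
                    k ∈ (univ.filter fun k => (ω' 0 k).1 = true) := by
                  simp only at hh; rw [hh]
                simp only [mem_filter, mem_univ, true_and] at this
                show (ω 0 k).1 = (ω' 0 k).1
                cases hb : (ω 0 k).1 <;> cases hb' : (ω' 0 k).1 <;> simp_all
              · exact f0 k
            · exact f1
            · exact f2
      _ = n.choose t.toNat := by rw [Finset.card_powersetCard]; simp
      _ ≤ n.choose (n / 2) := Nat.choose_le_middle _ _

/-- Vertical drift: the satisfying tuples have many marked steps or are degenerate. -/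
lemma sat_vertical_card {s : Ω → Gam EV} {bad : Ω → ℕ} (h : StepsD s 1 0 bad c) (n : ℕ) :
    (Fintype.card Ω ^ n) ^ 3 * 2 ^ n ≤ badCount s (W 3) n * 2 ^ n + (degen s bad n).card * 2 ^ n +
      ((∑ o, 2 ^ (9 * bad o)) ^ n) ^ 3 := by
  classical
  have h1 : (Fintype.card Ω ^ n) ^ 3 ≤ badCount s (W 3) n + (degen s bad n).card +
      (univ.filter fun ω : Fin 3 → Fin n → Ω => n ≤ 9 * nb3 bad ω).card := by
    have h2 : (Fintype.card Ω ^ n) ^ 3 = (univ : Finset (Fin 3 → Fin n → Ω)).card := by
      rw [Finset.card_univ]; simp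
    rw [h2]
    unfold badCount
    refine le_trans (Finset.card_le_card ?_) (le_trans (Finset.card_union_le _ _)
      (Nat.add_le_add_right (Finset.card_union_le _ _) _))
    intro ω _
    rw [Finset.mem_union, Finset.mem_union]
    by_cases hb : n ≤ 9 * nb3 bad ω
    · right; rw [Finset.mem_filter]; exact ⟨Finset.mem_univ _, hb⟩
    · left
      push Not at hb
      by_cases hcl : cl (rprod s (ω 0)) (rprod s (ω 1)) = 0
      · right
        unfold degen
        rw [Finset.mem_filter]
        exact ⟨Finset.mem_univ _, hb, hcl⟩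
      · left
        rw [Finset.mem_filter]
        refine ⟨Finset.mem_univ _, ?_⟩
        apply viol_vertical h ω _ hcl
        rw [← nb3_eq]
        exact_mod_cast hb
  have h3 := markov bad n
  calc (Fintype.card Ω ^ n) ^ 3 * 2 ^ n ≤ (badCount s (W 3) n + (degen s bad n).card +
      (univ.filter fun ω : Fin 3 → Fin n → Ω => n ≤ 9 * nb3 bad ω).card) * 2 ^ n :=
        Nat.mul_le_mul_right _ h1
    _ = badCount s (W 3) n * 2 ^ n + (degen s bad n).card * 2 ^ n +
      (univ.filter fun ω : Fin 3 → Fin n → Ω => n ≤ 9 * nb3 bad ω).card * 2 ^ n := by ring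
    _ ≤ _ := Nat.add_le_add_left h3 _

end H790W
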