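import Mathlib
import Pool.Agent.H790W.TwoCount

/-!
Concrete drifted generating sets.
-/

namespace H790W

open Finset

/-- lamp generator -/
noncomputable def aV : Gam EV := ⟨1, 0, 0⟩

/-- translations -/
noncomputable def tV (v : V2) : Gam EV := ⟨0, 0, v⟩

/-- unit vectors -/
def uv (i : Fin 2) : V2 := Pi.single i 1

/-- index set of the steps without the Boolean label -/
abbrev Om' := Fin 30000 ⊕ Fin 5

/-- index set of the steps -/
abbrev Om2 := Bool × Om'

/-- steps without the Boolean label -/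
noncomputable def core (i j : Fin 2) : Om' → Gam EV
  | .inl m => aV ^ (2 * (m : ℕ)) * tV (uv i)
  | .inr 0 => 1
  | .inr 1 => (aV⁻¹) ^ 2
  | .inr 2 => (tV (uv i))⁻¹
  | .inr 3 => tV (uv j)
  | .inr 4 => (tV (uv j))⁻¹

/-- the steps -/
noncomputable def s2 (i j : Fin 2) (t : Om2) : Gam EV := aV ^ (bz t.1) * core i j t.2

/-- lamp values of `core` -/
def cc : Om' → ℤ
  | .inl m => 2 * (m : ℕ)
  | .inr 0 => 0
  | .inr 1 => -2
  | .inr 2 => 0
  | .inr 3 => 0
  | .inr 4 => 0

/-- marked steps -/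
def bd : Om2 → ℕ := fun t => match t.2 with
  | .inl _ => 0
  | .inr _ => 1

lemma aV_pow_pos (k : ℕ) : (aV ^ k).pos = 0 := by
  rw [Gam.pow_pos']; simp [aV]

lemma aV_pow_lamp (k : ℕ) : (aV ^ k).lamp = (k : AddMonoidAlgebra ℤ V2) := by
  induction k with
  | zero => simp
  | succ k ih =>
    rw [pow_succ, Gam.mul_lamp, ih, aV_pow_pos, T_zero, one_mul]
    simp [aV]

lemma aV_inv_pos : (aV⁻¹).pos = 0 := by rw [Gam.inv_pos]; simp [aV]

lemma aV_inv_lamp : (aV⁻¹).lamp = -1 := by rw [Gam.inv_lamp]; simp [aV, T_zero]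

lemma aV_inv_sq_pos : ((aV⁻¹) ^ 2).pos = 0 := by rw [Gam.pow_pos', aV_inv_pos]; simp

lemma aV_inv_sq_lamp : ((aV⁻¹) ^ 2).lamp = -2 := by
  rw [pow_two, Gam.mul_lamp, aV_inv_pos, aV_inv_lamp, T_zero]; ring

lemma tV_inv_pos (v : V2) : ((tV v)⁻¹).pos = -v := by rw [Gam.inv_pos]; rfl

lemma tV_inv_lamp (v : V2) : ((tV v)⁻¹).lamp = 0 := by rw [Gam.inv_lamp]; simp [tV]

lemma core_lamp (i j : Fin 2) (o : Om') :
    (core i j o).lamp = ((cc o : ℤ) : AddMonoidAlgebra ℤ V2) := by
  rcases o with m | x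
  · simp only [core, cc, Gam.mul_lamp, aV_pow_lamp, aV_pow_pos, T_zero]
    simp [tV]
  · fin_cases x
    · simp [core, cc]
    · simp only [core, cc]
      rw [aV_inv_sq_lamp]
      push_cast; rfl
    · simp [core, cc, tV]
    · simp [core, cc, tV]
    · simp [core, cc, tV]

lemma core_pos_inl (i j : Fin 2) (m : Fin 30000) : (core i j (.inl m)).pos = uv i := by
  simp only [core, Gam.mul_pos', aV_pow_pos, zero_add]; rfl

lemma s2_pos (i j : Fin 2) (b : Bool) (o : Om') : (s2 i j (b, o)).pos = (core i j o).pos := by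
  simp only [s2, Gam.mul_pos', aV_pow_pos, zero_add]

lemma s2_lamp (i j : Fin 2) (b : Bool) (o : Om') :
    (s2 i j (b, o)).lamp = (((bz b : ℤ) + cc o : ℤ) : AddMonoidAlgebra ℤ V2) := by
  simp only [s2, Gam.mul_lamp, aV_pow_lamp, aV_pow_pos, T_zero, one_mul, core_lamp]
  push_cast; ring

lemma uv_self (i : Fin 2) : uv i i = 1 := by simp [uv]
lemma uv_ne {i j : Fin 2} (h : i ≠ j) : uv i j = 0 := by simp [uv, h.symm]

/-- table of positions -/
lemma core_pos_table {i j : Fin 2} (hij : i ≠ j) (o : Om') :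
    ((core i j o).pos i, (core i j o).pos j) =
      match o with
      | .inl _ => ((1 : ℤ), (0 : ℤ))
      | .inr 0 => (0, 0)
      | .inr 1 => (0, 0)
      | .inr 2 => (-1, 0)
      | .inr 3 => (0, 1)
      | .inr 4 => (0, -1) := by
  rcases o with m | x
  · rw [core_pos_inl, uv_self, uv_ne hij]
  · fin_cases x
    · simp [core]
    · simp only [core]; rw [aV_inv_sq_pos]; rfl
    · simp only [core, tV_inv_pos, Pi.neg_apply, uv_self, uv_ne hij, neg_zero]
    · simp only [core, tV, uv_self, uv_ne hij.symm]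
    · simp only [core, tV_inv_pos, Pi.neg_apply, uv_self, uv_ne hij.symm, neg_zero]

lemma s2_steps {i j : Fin 2} (hij : i ≠ j) :
    StepsD (s2 i j) i j bd (fun t => (bz t.1 : ℤ) + cc t.2) where
  lampc := fun ⟨b, o⟩ => s2_lamp i j b o
  badle := by
    rintro ⟨b, m | x⟩ <;> simp [bd]
  posi1 := by
    rintro ⟨b, o⟩
    rw [s2_pos]
    have h := core_pos_table hij o
    rcases o with m | x
    · simp only [Prod.mk.injEq] at h; rw [h.1]; simp [bd]
    · fin_cases x <;> (simp only [Prod.mk.injEq] at h; rw [h.1]; simp [bd])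
  posi2 := by
    rintro ⟨b, o⟩
    rw [s2_pos]
    have h := core_pos_table hij o
    rcases o with m | x
    · simp only [Prod.mk.injEq] at h; rw [h.1]
    · fin_cases x <;> (simp only [Prod.mk.injEq] at h; rw [h.1]; norm_num)
  posj := by
    rintro ⟨b, o⟩
    rw [s2_pos]
    have h := core_pos_table hij o
    rcases o with m | x
    · simp only [Prod.mk.injEq] at h; rw [h.2]; simp [bd]
    · fin_cases x <;> (simp only [Prod.mk.injEq] at h; rw [h.2]; simp [bd])

lemma cc_even (o : Om') : ∃ z, cc o = 2 * z := by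
  rcases o with m | x
  · exact ⟨(m : ℕ), rfl⟩
  · fin_cases x
    · exact ⟨0, rfl⟩
    · exact ⟨-1, rfl⟩
    · exact ⟨0, rfl⟩
    · exact ⟨0, rfl⟩
    · exact ⟨0, rfl⟩

lemma s2_injective {i j : Fin 2} (hij : i ≠ j) : Function.Injective (s2 i j) := by
  rintro ⟨b, o⟩ ⟨b', o'⟩ h
  have hl := congrArg (fun g => tot (Gam.lamp g)) h
  have hp := congrArg Gam.pos h
  simp only [s2_lamp, tot_intCast] at hl
  rw [s2_pos, s2_pos] at hp
  obtain ⟨z, hz⟩ := cc_even o
  obtain ⟨z', hz'⟩ := cc_even o'
  have hb : b = b' := by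
    cases b <;> cases b' <;> first | rfl | (exfalso; simp only [bz] at hl; push_cast at hl; omega)
  subst hb
  have hc : cc o = cc o' := by linarith
  have t1 := core_pos_table hij o
  have t2 := core_pos_table hij o'
  rw [hp] at t1
  rw [t1] at t2
  have ho : o = o' := by
    rcases o with m | x <;> rcases o' with m' | x'
    · have : ((m : ℕ) : ℤ) = (m' : ℕ) := by simp only [cc] at hc; linarith
      have : (m : ℕ) = (m' : ℕ) := by exact_mod_cast this
      rw [Fin.ext this]
    · exfalso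
      fin_cases x' <;> simp at t2
    · exfalso
      fin_cases x <;> simp at t2
    · fin_cases x <;> fin_cases x' <;> first | rfl | (exfalso; simp at t2; done) |
        (exfalso; simp [cc] at hc)
  rw [ho]

/-- generators of the group -/
def genV : Set (Gam EV) := {aV, tV (uv 0), tV (uv 1)}

/-- the group -/
abbrev G2 := ↥(Subgroup.closure genV)

lemma aV_mem : aV ∈ Subgroup.closure genV := Subgroup.subset_closure (by simp [genV])

lemma tV_mem (i : Fin 2) : tV (uv i) ∈ Subgroup.closure genV := by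
  apply Subgroup.subset_closure
  fin_cases i <;> simp [genV]

lemma core_mem (i j : Fin 2) (o : Om') : core i j o ∈ Subgroup.closure genV := by
  rcases o with m | x
  · exact Subgroup.mul_mem _ (Subgroup.pow_mem _ aV_mem _) (tV_mem i)
  · fin_cases x
    · exact Subgroup.one_mem _
    · exact Subgroup.pow_mem _ (Subgroup.inv_mem _ aV_mem) _
    · exact Subgroup.inv_mem _ (tV_mem i)
    · exact tV_mem j
    · exact Subgroup.inv_mem _ (tV_mem j)

lemma s2_mem (i j : Fin 2) (t : Om2) : s2 i j t ∈ Subgroup.closure genV :=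
  Subgroup.mul_mem _ (Subgroup.pow_mem _ aV_mem _) (core_mem i j t.2)

/-- steps in the group `G2` -/
noncomputable def sG2 (i j : Fin 2) (t : Om2) : G2 := ⟨s2 i j t, s2_mem i j t⟩

lemma sG2_injective {i j : Fin 2} (hij : i ≠ j) : Function.Injective (sG2 i j) :=
  fun _ _ h => s2_injective hij (congrArg Subtype.val h)

open Classical in
/-- the finite generating set with drift `e_i` -/
noncomputable def S2 (i j : Fin 2) : Finset G2 := univ.image (sG2 i j)

open Classical in
lemma S2_nonempty (i j : Fin 2) : (S2 i j).Nonempty := Finset.univ_nonempty.image _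

open Classical in
lemma one_mem_S2 (i j : Fin 2) : (1 : G2) ∈ S2 i j := by
  rw [S2, Finset.mem_image]
  refine ⟨(false, .inr 0), Finset.mem_univ _, ?_⟩
  apply Subtype.ext
  simp [sG2, s2, core, bz]

open Classical in
lemma S2_closure {i j : Fin 2} (hij : i ≠ j) :
    Submonoid.closure (S2 i j : Set G2) = ⊤ := by
  rw [eq_top_iff]
  intro g _
  have hS : ((↑) : G2 → Gam EV) '' (S2 i j : Set G2) = Set.range (s2 i j) := by
    rw [S2, Finset.coe_image, Finset.coe_univ, Set.image_univ, ← Set.range_comp]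
    rfl
  have hmap : (Submonoid.closure (S2 i j : Set G2)).map (Subgroup.closure genV).subtype =
      Submonoid.closure (Set.range (s2 i j)) := by
    rw [MonoidHom.map_mclosure]
    congr 1
  have hg : (g : Gam EV) ∈ (Subgroup.closure genV).toSubmonoid := g.2
  rw [Subgroup.closure_toSubmonoid] at hg
  have hsub : genV ∪ genV⁻¹ ⊆ Set.range (s2 i j) := by
    have ha : aV ∈ Set.range (s2 i j) := ⟨(true, .inr 0), by simp [s2, core, bz]⟩
    have hai : aV⁻¹ ∈ Set.range (s2 i j) := ⟨(true, .inr 1), by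
      simp only [s2, core, bz]; group⟩
    have hi : tV (uv i) ∈ Set.range (s2 i j) := ⟨(false, .inl 0), by simp [s2, core, bz]⟩
    have hii : (tV (uv i))⁻¹ ∈ Set.range (s2 i j) := ⟨(false, .inr 2), by simp [s2, core, bz]⟩
    have hj : tV (uv j) ∈ Set.range (s2 i j) := ⟨(false, .inr 3), by simp [s2, core, bz]⟩
    have hji : (tV (uv j))⁻¹ ∈ Set.range (s2 i j) := ⟨(false, .inr 4), by simp [s2, core, bz]⟩
    have hk : ∀ k : Fin 2, k = i ∨ k = j := by omega
    have hall : ∀ k : Fin 2, tV (uv k) ∈ Set.range (s2 i j) ∧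
        (tV (uv k))⁻¹ ∈ Set.range (s2 i j) := by
      intro k
      rcases hk k with rfl | rfl
      · exact ⟨hi, hii⟩
      · exact ⟨hj, hji⟩
    rintro x (hx | hx)
    · rcases hx with rfl | rfl | rfl
      · exact ha
      · exact (hall 0).1
      · exact (hall 1).1
    · rw [Set.mem_inv] at hx
      rcases hx with hx | hx | hx
      · rw [← inv_inv x, hx]; exact hai
      · rw [← inv_inv x, hx]; exact (hall 0).2
      · rw [← inv_inv x, hx]; exact (hall 1).2
  have hg2 : (g : Gam EV) ∈ Submonoid.closure (Set.range (s2 i j)) :=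
    Submonoid.closure_mono hsub hg
  rw [← hmap] at hg2
  obtain ⟨g', hg', he⟩ := hg2
  have : g' = g := Subtype.ext he
  rw [← this]
  exact hg'

lemma unif_S2 {i j : Fin 2} (hij : i ≠ j) :
    PMF.uniformOfFinset (S2 i j) (S2_nonempty i j) =
      (PMF.uniformOfFintype Om2).map (sG2 i j) := by
  classical
  exact uniformOfFinset_image (sG2 i j) (sG2_injective hij) (S2_nonempty i j)

lemma card_Om2 : Fintype.card Om2 = 60010 := by simp

lemma sum_bd : ∑ o : Om2, 2 ^ (9 * bd o) = 65120 := by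
  rw [Fintype.sum_prod_type]
  simp [bd, Fintype.sum_sum_type]

end H790W
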